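import Pool.Agent.Helper96.AW.GoalsC

/-!
Project AW, packet AU: the block sums.  With `m = n^(1/3)`, `q = √(2^i)`: for `4 q² ≤ m²` the sum of
`vv` over the block `[2q², 4q²)` is at least `e^(-2)/(16 q³)`, the term is at most `(6/c³) q⁴/m⁶`;
otherwise the term is at most `m³/q⁵ ≤ 2 m²/q⁴`.
-/

set_option autoImplicit false

namespace Pool.Agent.Helper22.AW.AU

open Finset Filter Topology Pool.Agent.Helper26.AF Pool.Agent.Helper96.AW

theorem fact_le (k : ℕ) (hk : 1 ≤ k) :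
    (k.factorial : ℝ) ≤ Real.exp 1 * √k * (k / Real.exp 1) ^ k := by
  obtain ⟨j, rfl⟩ : ∃ j, k = j + 1 := ⟨k - 1, by omega⟩
  have h1 : Stirling.stirlingSeq (j + 1) ≤ Stirling.stirlingSeq 1 :=
    Stirling.stirlingSeq'_antitone (Nat.zero_le j)
  rw [Stirling.stirlingSeq_one] at h1
  unfold Stirling.stirlingSeq at h1
  have hpos : (0 : ℝ) < √(2 * ((j + 1 : ℕ) : ℝ)) * (((j + 1 : ℕ) : ℝ) / Real.exp 1) ^ (j + 1) := by
    positivity
  rw [div_le_iff₀ hpos] at h1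
  refine h1.trans (le_of_eq ?_)
  rw [Real.sqrt_mul (by norm_num)]
  have h2 : √(2 : ℝ) ≠ 0 := by positivity
  field_simp

theorem one_sub_mul_exp (d : ℝ) (h0 : 0 ≤ d) (h1 : d ≤ 1 / 2) :
    Real.exp (-d ^ 2) ≤ (1 - d) * Real.exp d := by
  have h2 : Real.exp (-d ^ 2) = Real.exp d * Real.exp (-(d + d ^ 2)) := by
    rw [← Real.exp_add]; congr 1; ring
  rw [h2, mul_comm]
  refine mul_le_mul_of_nonneg_right ?_ (Real.exp_pos _).le
  have hs : 0 ≤ d + d ^ 2 := by positivity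
  have h3 := Real.quadratic_le_exp_of_nonneg hs
  rw [Real.exp_neg, inv_le_comm₀ (Real.exp_pos _) (by linarith)]
  refine le_trans ?_ h3
  rw [inv_le_iff_one_le_mul₀ (by linarith)]
  have h4 : (1 + (d + d ^ 2) + (d + d ^ 2) ^ 2 / 2) * (1 - d)
      = 1 + d ^ 2 * (1 - d - d ^ 2 - d ^ 3) / 2 := by ring
  rw [h4]
  have h5 : 0 ≤ 1 - d - d ^ 2 - d ^ 3 := by
    have h6 : d ^ 2 ≤ 1 / 4 := by nlinarith
    have h7 : d ^ 3 ≤ 1 / 8 := by
      have : d ^ 3 = d * d ^ 2 := by ring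
      rw [this]; nlinarith
    linarith
  have := mul_nonneg (sq_nonneg d) h5
  linarith

theorem vv_ge (d : ℝ) (k : ℕ) (h0 : 0 ≤ d) (h1 : d ≤ 1 / 2) (hk : 2 ≤ k)
    (hkd : (k : ℝ) * d ^ 2 ≤ 1) :
    Real.exp (-2) / ((k : ℝ) ^ 2 * √k) ≤ vv (1 - d) k := by
  have hk0 : (0 : ℝ) < k := by positivity
  unfold vv
  have e1 : ((1 - d) * Real.exp (-(1 - d))) ^ k
      = ((1 - d) * Real.exp d) ^ k * (Real.exp (-1)) ^ k := by
    rw [← mul_pow]
    congr 1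
    have : Real.exp (-(1 - d)) = Real.exp d * Real.exp (-1) := by
      rw [← Real.exp_add]; congr 1; ring
    rw [this]; ring
  have e2 : Real.exp (-1) ≤ ((1 - d) * Real.exp d) ^ k := by
    have h2 := one_sub_mul_exp d h0 h1
    have h3 := pow_le_pow_left₀ (Real.exp_pos _).le h2 k
    refine le_trans ?_ h3
    rw [← Real.exp_nat_mul]
    refine Real.exp_le_exp.2 ?_
    linarith
  have e3 := fact_le k (by omega)
  have e4 : (k : ℝ) ^ k = (k : ℝ) ^ (k - 2) * (k : ℝ) ^ 2 := by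
    rw [← pow_add]; congr 1; omega
  have e5 : (k / Real.exp 1) ^ k = (k : ℝ) ^ k * (Real.exp (-1)) ^ k := by
    rw [← mul_pow, Real.exp_neg]
    congr 1
  rw [e1, div_le_div_iff₀ (by positivity) (by positivity)]
  have e6 : Real.exp (-2) * Real.exp 1 = Real.exp (-1) := by
    rw [← Real.exp_add]; norm_num
  calc Real.exp (-2) * (k.factorial : ℝ)
      ≤ Real.exp (-2) * (Real.exp 1 * √k * (k / Real.exp 1) ^ k) :=
        mul_le_mul_of_nonneg_left e3 (Real.exp_pos _).le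
    _ = Real.exp (-1) * (√k * ((k : ℝ) ^ (k - 2) * (k : ℝ) ^ 2 * (Real.exp (-1)) ^ k)) := by
        rw [e5, e4, ← e6]; ring
    _ ≤ ((1 - d) * Real.exp d) ^ k * (√k * ((k : ℝ) ^ (k - 2) * (k : ℝ) ^ 2 * (Real.exp (-1)) ^ k)) :=
        mul_le_mul_of_nonneg_right e2 (by positivity)
    _ = _ := by ring

theorem sum_low (n : ℕ) (X : ℝ) (hX : 0 < X) :
    ∑ i ∈ (range n).filter (fun i => (2 : ℝ) ^ i ≤ X), (2 : ℝ) ^ i ≤ 2 * X := by
  induction n with
  | zero => simp; linarith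
  | succ n ih =>
    rw [Finset.range_add_one, Finset.filter_insert]
    split_ifs with h
    · rw [Finset.sum_insert (by simp)]
      have h1 : ∑ i ∈ (range n).filter (fun i => (2 : ℝ) ^ i ≤ X), (2 : ℝ) ^ i
          ≤ ∑ i ∈ range n, (2 : ℝ) ^ i :=
        Finset.sum_le_sum_of_subset_of_nonneg (Finset.filter_subset _ _) fun i _ _ => by positivity
      have h2 : ∑ i ∈ range n, (2 : ℝ) ^ i = 2 ^ n - 1 := by
        rw [geom_sum_eq (by norm_num)]; norm_num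
      linarith
    · exact ih

theorem sum_high (n : ℕ) (X : ℝ) (hX : 0 < X) :
    ∑ i ∈ (range n).filter (fun i => X < (2 : ℝ) ^ i), ((2 : ℝ) ^ i)⁻¹
      ≤ max 0 (2 / X - 2 / 2 ^ n) := by
  induction n with
  | zero => simp
  | succ n ih =>
    rw [Finset.range_add_one, Finset.filter_insert]
    have h2 : (0 : ℝ) < 2 ^ n := by positivity
    have h3 : (2 : ℝ) / 2 ^ (n + 1) = 1 / 2 ^ n := by rw [pow_succ]; field_simp
    have h4 : (2 : ℝ) / 2 ^ n = 2 * (1 / 2 ^ n) := by ring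
    split_ifs with h
    · rw [Finset.sum_insert (by simp)]
      have h5 : (2 : ℝ) / 2 ^ n ≤ 2 / X := div_le_div_of_nonneg_left (by norm_num) hX h.le
      rw [max_eq_right (by linarith)] at ih
      refine le_trans ?_ (le_max_right _ _)
      rw [h3, ← one_div]
      linarith
    · refine ih.trans (max_le_max le_rfl ?_)
      rw [h3]
      have : (0 : ℝ) < 1 / 2 ^ n := by positivity
      linarith

theorem exp_neg_le (x : ℝ) (hx : 0 < x) : Real.exp (-x) ≤ 6 / x ^ 3 := by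
  have h1 := Real.pow_div_factorial_le_exp x hx.le 3
  rw [Real.exp_neg, inv_eq_one_div, div_le_div_iff₀ (Real.exp_pos _) (by positivity)]
  have h2 : ((Nat.factorial 3 : ℕ) : ℝ) = 6 := by norm_num [Nat.factorial]
  rw [h2, div_le_iff₀ (by norm_num)] at h1
  linarith

/-- The estimate of one term, in the variables `m = n^(1/3)`, `q = √(2^i)`. -/
theorem term_low (m a d : ℝ) (i : ℕ) (hm : 2 ≤ m) (ha : m ^ 3 / 3 ≤ a) (ha' : a ≤ m ^ 3)
    (hd0 : 0 ≤ d) (hd : d ≤ 1 / m) (hi : 4 * (2 : ℝ) ^ i ≤ m ^ 2) :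
    a * ((2 : ℝ) ^ i) ^ (-(5 : ℝ) / 2) *
      Real.exp (-(a * ∑ k ∈ Ico (2 ^ (i + 1)) (2 ^ (i + 2)), vv (1 - d) k))
    ≤ 6 / (Real.exp (-2) / 48) ^ 3 * (4 : ℝ) ^ i / m ^ 6 := by
  set q : ℝ := √((2 : ℝ) ^ i) with hq
  have hq0 : 0 < q := by rw [hq]; positivity
  have hq2 : q ^ 2 = (2 : ℝ) ^ i := by rw [hq]; exact Real.sq_sqrt (by positivity)
  have hm0 : 0 < m := by linarith
  have ha0 : 0 < a := lt_of_lt_of_le (by positivity) ha
  have hpow : ((2 : ℝ) ^ i) ^ (-(5 : ℝ) / 2) = 1 / q ^ 5 := by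
    rw [← hq2, ← Real.rpow_natCast, ← Real.rpow_mul hq0.le]
    have : ((2 : ℕ) : ℝ) * (-(5 : ℝ) / 2) = -((5 : ℕ) : ℝ) := by norm_num
    rw [this, Real.rpow_neg hq0.le, Real.rpow_natCast, one_div]
  have h4 : (4 : ℝ) ^ i = q ^ 4 := by
    have : q ^ 4 = (q ^ 2) ^ 2 := by ring
    rw [this, hq2, ← pow_mul, mul_comm, pow_mul]
    norm_num
  have hd2 : d ≤ 1 / 2 := hd.trans (one_div_le_one_div_of_le (by norm_num) hm)
  have hterm : ∀ k ∈ Ico (2 ^ (i + 1)) (2 ^ (i + 2)), Real.exp (-2) / (32 * q ^ 5) ≤ vv (1 - d) k := by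
    intro k hk
    have hk' := Finset.mem_Ico.mp hk
    have hk2 : 2 ≤ k := le_trans (by
      calc 2 = 2 ^ 1 := by norm_num
        _ ≤ 2 ^ (i + 1) := Nat.pow_le_pow_right (by norm_num) (by omega)) hk'.1
    have hkq : (k : ℝ) ≤ 4 * q ^ 2 := by
      rw [hq2]
      have : (k : ℝ) ≤ ((2 ^ (i + 2) : ℕ) : ℝ) := by exact_mod_cast hk'.2.le
      refine this.trans (le_of_eq ?_)
      push_cast
      ring
    have hkm : (k : ℝ) ≤ m ^ 2 := by rw [hq2] at hkq; linarith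
    have hkd : (k : ℝ) * d ^ 2 ≤ 1 := by
      have h1 : d ^ 2 ≤ (1 / m) ^ 2 := pow_le_pow_left₀ hd0 hd 2
      calc (k : ℝ) * d ^ 2 ≤ m ^ 2 * (1 / m) ^ 2 :=
            mul_le_mul hkm h1 (by positivity) (by positivity)
        _ = 1 := by field_simp
    refine le_trans ?_ (vv_ge d k hd0 hd2 hk2 hkd)
    have hk0 : (0 : ℝ) < k := by positivity
    refine div_le_div_of_nonneg_left (Real.exp_pos _).le (by positivity) ?_
    have h1 : (k : ℝ) ^ 2 ≤ (4 * q ^ 2) ^ 2 := pow_le_pow_left₀ hk0.le hkq 2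
    have h2 : √(k : ℝ) ≤ 2 * q := by
      rw [Real.sqrt_le_iff]
      refine ⟨by positivity, ?_⟩
      rw [mul_pow]; linarith
    calc (k : ℝ) ^ 2 * √k ≤ (4 * q ^ 2) ^ 2 * (2 * q) :=
          mul_le_mul h1 h2 (by positivity) (by positivity)
      _ = 32 * q ^ 5 := by ring
  have hsum : Real.exp (-2) / (16 * q ^ 3)
      ≤ ∑ k ∈ Ico (2 ^ (i + 1)) (2 ^ (i + 2)), vv (1 - d) k := by
    have h1 := Finset.card_nsmul_le_sum _ _ _ hterm
    refine le_trans (le_of_eq ?_) h1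
    rw [Nat.card_Ico, nsmul_eq_mul]
    have h2 : ((2 ^ (i + 2) - 2 ^ (i + 1) : ℕ) : ℝ) = 2 * q ^ 2 := by
      have h3 : 2 ^ (i + 2) - 2 ^ (i + 1) = 2 ^ (i + 1) := by
        rw [pow_succ 2 (i + 1)]; omega
      rw [h3, hq2]; push_cast; ring
    rw [h2]
    field_simp
    ring
  set c : ℝ := Real.exp (-2) / 48 with hc
  have hc0 : 0 < c := by rw [hc]; positivity
  have hexp : c * (m ^ 3 / q ^ 3) ≤ a * ∑ k ∈ Ico (2 ^ (i + 1)) (2 ^ (i + 2)), vv (1 - d) k := by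
    refine le_trans (le_of_eq ?_) (mul_le_mul ha hsum (by positivity) ha0.le)
    rw [hc]; field_simp; ring
  have hexp2 : Real.exp (-(a * ∑ k ∈ Ico (2 ^ (i + 1)) (2 ^ (i + 2)), vv (1 - d) k))
      ≤ 6 / (c * (m ^ 3 / q ^ 3)) ^ 3 :=
    (Real.exp_le_exp.2 (neg_le_neg hexp)).trans (exp_neg_le _ (by positivity))
  rw [hpow, h4]
  calc a * (1 / q ^ 5) * Real.exp (-(a * ∑ k ∈ Ico (2 ^ (i + 1)) (2 ^ (i + 2)), vv (1 - d) k))
      ≤ m ^ 3 * (1 / q ^ 5) * (6 / (c * (m ^ 3 / q ^ 3)) ^ 3) := by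
        refine mul_le_mul (mul_le_mul_of_nonneg_right ha' (by positivity)) hexp2
          (Real.exp_pos _).le (by positivity)
    _ = 6 / c ^ 3 * q ^ 4 / m ^ 6 := by
        field_simp

theorem term_high (m a d : ℝ) (i : ℕ) (hm : 2 ≤ m) (ha0 : 0 ≤ a) (ha' : a ≤ m ^ 3)
    (hd0 : 0 ≤ d) (hd : d ≤ 1) (hi : m ^ 2 < 4 * (2 : ℝ) ^ i) :
    a * ((2 : ℝ) ^ i) ^ (-(5 : ℝ) / 2) *
      Real.exp (-(a * ∑ k ∈ Ico (2 ^ (i + 1)) (2 ^ (i + 2)), vv (1 - d) k))
    ≤ 2 * m ^ 2 / (4 : ℝ) ^ i := by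
  set q : ℝ := √((2 : ℝ) ^ i) with hq
  have hq0 : 0 < q := by rw [hq]; positivity
  have hq2 : q ^ 2 = (2 : ℝ) ^ i := by rw [hq]; exact Real.sq_sqrt (by positivity)
  have hm0 : 0 < m := by linarith
  have hpow : ((2 : ℝ) ^ i) ^ (-(5 : ℝ) / 2) = 1 / q ^ 5 := by
    rw [← hq2, ← Real.rpow_natCast, ← Real.rpow_mul hq0.le]
    have : ((2 : ℕ) : ℝ) * (-(5 : ℝ) / 2) = -((5 : ℕ) : ℝ) := by norm_num
    rw [this, Real.rpow_neg hq0.le, Real.rpow_natCast, one_div]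
  have h4 : (4 : ℝ) ^ i = q ^ 4 := by
    have : q ^ 4 = (q ^ 2) ^ 2 := by ring
    rw [this, hq2, ← pow_mul, mul_comm, pow_mul]
    norm_num
  have hmq : m < 2 * q := by
    have : m ^ 2 < (2 * q) ^ 2 := by rw [mul_pow, hq2]; linarith
    exact lt_of_pow_lt_pow_left₀ 2 (by positivity) this
  have hvv : 0 ≤ ∑ k ∈ Ico (2 ^ (i + 1)) (2 ^ (i + 2)), vv (1 - d) k := by
    refine Finset.sum_nonneg fun k _ => ?_
    unfold vv
    have : 0 ≤ 1 - d := by linarith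
    positivity
  have hexp : Real.exp (-(a * ∑ k ∈ Ico (2 ^ (i + 1)) (2 ^ (i + 2)), vv (1 - d) k)) ≤ 1 := by
    rw [Real.exp_le_one_iff]
    have := mul_nonneg ha0 hvv
    linarith
  rw [hpow, h4]
  calc a * (1 / q ^ 5) * Real.exp (-(a * ∑ k ∈ Ico (2 ^ (i + 1)) (2 ^ (i + 2)), vv (1 - d) k))
      ≤ m ^ 3 * (1 / q ^ 5) * 1 := by
        refine mul_le_mul (mul_le_mul_of_nonneg_right ha' (by positivity)) hexp
          (Real.exp_pos _).le (by positivity)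
    _ ≤ 2 * m ^ 2 / q ^ 4 := by
        rw [mul_one, mul_one_div, div_le_div_iff₀ (by positivity) (by positivity)]
        have : m ^ 3 * q ^ 4 = m ^ 2 * q ^ 4 * m := by ring
        rw [this]
        have h5 : 2 * m ^ 2 * q ^ 5 = m ^ 2 * q ^ 4 * (2 * q) := by ring
        rw [h5]
        exact mul_le_mul_of_nonneg_left hmq.le (by positivity)

theorem t : Pool.Agent.Helper96.AW.S_AU := by
  set c : ℝ := Real.exp (-2) / 48 with hc
  have hc0 : 0 < c := by rw [hc]; positivity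
  refine ⟨8 + 6 / c ^ 3 + 64, by positivity, fun l hl => ?_⟩
  have htend : Tendsto (fun n : ℕ => (n : ℝ) ^ ((1 : ℝ) / 3)) atTop atTop :=
    (tendsto_rpow_atTop (by norm_num)).comp tendsto_natCast_atTop_atTop
  filter_upwards [eventually_ge_atTop 8, htend.eventually_ge_atTop l] with n hn hln
  set m : ℝ := (n : ℝ) ^ ((1 : ℝ) / 3) with hm
  have hn8 : (8 : ℝ) ≤ n := by exact_mod_cast hn
  have hn0 : (0 : ℝ) < n := by linarith
  have hm0 : 0 < m := Real.rpow_pos_of_pos hn0 _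
  have hm3 : m ^ 3 = n := by
    rw [hm, ← Real.rpow_natCast, ← Real.rpow_mul hn0.le]; norm_num
  have hm2 : 2 ≤ m := by
    by_contra h
    push Not at h
    have : m ^ 3 < 2 ^ 3 := pow_lt_pow_left₀ h hm0.le (by norm_num)
    rw [hm3] at this
    linarith
  have hn23 : (n : ℝ) ^ (-(2 : ℝ) / 3) = 1 / m ^ 2 := by
    rw [hm, ← Real.rpow_natCast, ← Real.rpow_mul hn0.le, one_div, ← Real.rpow_neg hn0.le]
    congr 1
    norm_num
  -- the parameters
  set p : ℝ := pc l n with hp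
  have hpe : p = (1 + l / m) / n := rfl
  have hlm : l / m ≤ 1 := (div_le_one hm0).2 hln
  have hlm0 : 0 ≤ l / m := by positivity
  have hp0 : 0 < p := by rw [hpe]; positivity
  have hpn : p ≤ 2 / n := by
    rw [hpe]
    exact div_le_div_of_nonneg_right (by linarith) hn0.le
  have hpn' : 1 / n ≤ p := by
    rw [hpe]
    exact div_le_div_of_nonneg_right (by linarith) hn0.le
  have hp1 : p < 1 := lt_of_le_of_lt hpn (by rw [div_lt_one hn0]; linarith)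
  set a : ℝ := 1 / uu l n with ha
  have hae : a = 1 / p - 1 := by
    rw [ha]; unfold uu
    rw [← hp]
    have : 1 - p ≠ 0 := by linarith
    field_simp
  have ha1 : m ^ 3 / 3 ≤ a := by
    rw [hae, hm3]
    have h1 : n / 2 ≤ 1 / p := by
      rw [le_div_iff₀ hp0]
      calc (n : ℝ) / 2 * p ≤ n / 2 * (2 / n) := mul_le_mul_of_nonneg_left hpn (by positivity)
        _ = 1 := by field_simp
    linarith
  have ha2 : a ≤ m ^ 3 := by
    rw [hae, hm3]
    have h1 : 1 / p ≤ n := by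
      rw [div_le_iff₀ hp0]
      calc (1 : ℝ) = n * (1 / n) := by field_simp
        _ ≤ n * p := mul_le_mul_of_nonneg_left hpn' hn0.le
    linarith
  have ha0 : 0 < a := lt_of_lt_of_le (by positivity) ha1
  set d : ℝ := 1 / ((1 + l) * m) with hd
  have hta : ta l n = 1 - d := rfl
  have hd0 : 0 ≤ d := by rw [hd]; positivity
  have hdm : d ≤ 1 / m := by
    rw [hd]
    refine one_div_le_one_div_of_le hm0 ?_
    nlinarith
  have hd2 : d ≤ 1 / 2 := hdm.trans (one_div_le_one_div_of_le (by norm_num) hm2)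
  rw [hn23, hta]
  -- first term
  have hdiv : (1 - d - (1 - d) ^ 2 / 2) / uu l n = a * (1 - d - (1 - d) ^ 2 / 2) := by
    rw [ha]; ring
  have hT0 : Real.exp (-((1 - d - (1 - d) ^ 2 / 2) / uu l n)) ≤ 8 * (1 / m ^ 2) := by
    rw [hdiv]
    have h1 : 3 / 8 ≤ 1 - d - (1 - d) ^ 2 / 2 := by nlinarith
    have h2 : m ^ 2 / 8 ≤ a * (1 - d - (1 - d) ^ 2 / 2) := by
      calc m ^ 2 / 8 ≤ m ^ 3 / 3 * (3 / 8) := by nlinarith [sq_nonneg m]
        _ ≤ a * (1 - d - (1 - d) ^ 2 / 2) := mul_le_mul ha1 h1 (by norm_num) ha0.le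
    have h3 : Real.exp (-(a * (1 - d - (1 - d) ^ 2 / 2))) ≤ Real.exp (-(m ^ 2 / 8)) :=
      Real.exp_le_exp.2 (neg_le_neg h2)
    refine h3.trans ?_
    rw [Real.exp_neg, mul_one_div, inv_eq_one_div, div_le_div_iff₀ (Real.exp_pos _) (by positivity)]
    have h4 := Real.add_one_le_exp (m ^ 2 / 8)
    linarith
  -- the blocks
  have hsplit : ∑ i ∈ range n, a * ((2 : ℝ) ^ i) ^ (-(5 : ℝ) / 2) *
      Real.exp (-(a * ∑ k ∈ Ico (2 ^ (i + 1)) (2 ^ (i + 2)), vv (1 - d) k))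
      ≤ (6 / c ^ 3 + 64) * (1 / m ^ 2) := by
    rw [← Finset.sum_filter_add_sum_filter_not (range n) (fun i => (2 : ℝ) ^ i ≤ m ^ 2 / 4)]
    have hX : 0 < m ^ 2 / 4 := by positivity
    have hA : ∑ i ∈ (range n).filter (fun i => (2 : ℝ) ^ i ≤ m ^ 2 / 4),
        a * ((2 : ℝ) ^ i) ^ (-(5 : ℝ) / 2) *
        Real.exp (-(a * ∑ k ∈ Ico (2 ^ (i + 1)) (2 ^ (i + 2)), vv (1 - d) k))
        ≤ 6 / c ^ 3 * (1 / m ^ 2) := by
      have h1 : ∀ i ∈ (range n).filter (fun i => (2 : ℝ) ^ i ≤ m ^ 2 / 4),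
          a * ((2 : ℝ) ^ i) ^ (-(5 : ℝ) / 2) *
          Real.exp (-(a * ∑ k ∈ Ico (2 ^ (i + 1)) (2 ^ (i + 2)), vv (1 - d) k))
          ≤ 6 / c ^ 3 / m ^ 6 * (m ^ 2 / 4) * (2 : ℝ) ^ i := by
        intro i hi
        have hi' := (Finset.mem_filter.mp hi).2
        refine (term_low m a d i hm2 ha1 ha2 hd0 hdm (by linarith)).trans ?_
        have h4 : (4 : ℝ) ^ i = (2 : ℝ) ^ i * (2 : ℝ) ^ i := by
          rw [← mul_pow]; norm_num
        rw [h4]
        have h5 : 6 / c ^ 3 * ((2 : ℝ) ^ i * (2 : ℝ) ^ i) / m ^ 6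
            = 6 / c ^ 3 / m ^ 6 * (2 : ℝ) ^ i * (2 : ℝ) ^ i := by ring
        rw [h5]
        have h6 : (0 : ℝ) ≤ 6 / c ^ 3 / m ^ 6 := by positivity
        exact mul_le_mul_of_nonneg_right (mul_le_mul_of_nonneg_left hi' h6) (by positivity)
      refine (Finset.sum_le_sum h1).trans ?_
      rw [← Finset.mul_sum]
      have h2 := sum_low n (m ^ 2 / 4) hX
      have h3 : (0 : ℝ) ≤ 6 / c ^ 3 / m ^ 6 * (m ^ 2 / 4) := by positivity
      refine (mul_le_mul_of_nonneg_left h2 h3).trans ?_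
      have h4 : 6 / c ^ 3 / m ^ 6 * (m ^ 2 / 4) * (2 * (m ^ 2 / 4))
          = 6 / c ^ 3 * (1 / m ^ 2) * (1 / 8) := by
        field_simp
        ring
      rw [h4]
      have h5 : 0 ≤ 6 / c ^ 3 * (1 / m ^ 2) := by positivity
      linarith
    have hB : ∑ i ∈ (range n).filter (fun i => ¬ (2 : ℝ) ^ i ≤ m ^ 2 / 4),
        a * ((2 : ℝ) ^ i) ^ (-(5 : ℝ) / 2) *
        Real.exp (-(a * ∑ k ∈ Ico (2 ^ (i + 1)) (2 ^ (i + 2)), vv (1 - d) k))
        ≤ 64 * (1 / m ^ 2) := by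
      have h0 : (range n).filter (fun i => ¬ (2 : ℝ) ^ i ≤ m ^ 2 / 4)
          = (range n).filter (fun i => m ^ 2 / 4 < (2 : ℝ) ^ i) := by
        ext i; simp
      rw [h0]
      have h1 : ∀ i ∈ (range n).filter (fun i => m ^ 2 / 4 < (2 : ℝ) ^ i),
          a * ((2 : ℝ) ^ i) ^ (-(5 : ℝ) / 2) *
          Real.exp (-(a * ∑ k ∈ Ico (2 ^ (i + 1)) (2 ^ (i + 2)), vv (1 - d) k))
          ≤ 8 * ((2 : ℝ) ^ i)⁻¹ := by
        intro i hi
        have hi' := (Finset.mem_filter.mp hi).2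
        refine (term_high m a d i hm2 ha0.le ha2 hd0 (by linarith) (by linarith)).trans ?_
        have h4 : (4 : ℝ) ^ i = (2 : ℝ) ^ i * (2 : ℝ) ^ i := by
          rw [← mul_pow]; norm_num
        have h5 : (0 : ℝ) < 2 ^ i := by positivity
        rw [h4, div_le_iff₀ (by positivity)]
        have h6 : 8 * ((2 : ℝ) ^ i)⁻¹ * ((2 : ℝ) ^ i * (2 : ℝ) ^ i) = 8 * (2 : ℝ) ^ i := by
          field_simp
        rw [h6]
        linarith
      refine (Finset.sum_le_sum h1).trans ?_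
      rw [← Finset.mul_sum]
      have h2 := sum_high n (m ^ 2 / 4) hX
      have h3 : max 0 (2 / (m ^ 2 / 4) - 2 / 2 ^ n) ≤ 8 / m ^ 2 := by
        refine max_le (by positivity) ?_
        have h4 : 2 / (m ^ 2 / 4) = 8 / m ^ 2 := by field_simp; norm_num
        have h5 : (0 : ℝ) < 2 / 2 ^ n := by positivity
        linarith
      have h4 : 64 * (1 / m ^ 2) = 8 * (8 / m ^ 2) := by ring
      rw [h4]
      exact mul_le_mul_of_nonneg_left (h2.trans h3) (by norm_num)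
    calc _ ≤ 6 / c ^ 3 * (1 / m ^ 2) + 64 * (1 / m ^ 2) := add_le_add hA hB
      _ = _ := by ring
  calc _ ≤ 8 * (1 / m ^ 2) + (6 / c ^ 3 + 64) * (1 / m ^ 2) := add_le_add hT0 hsplit
    _ = _ := by ring

end Pool.Agent.Helper22.AW.AU
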