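import Pool.Agent.Helper96.AW.GoalsB
import Pool.Agent.Helper28.AF.EEB
import Pool.Agent.Helper22.AW.AU

/-!
Project AW, packet AA: the size of the coefficients `ee s/(2^(3s/2) Γ(3s/2))`, up to powers of `s`
equal to `(e/(12 s))^(s/2)`.  (Squares of everything; duplication formula and log-convexity.)
-/

set_option autoImplicit false

namespace Pool.Agent.Helper22.AW.AA

open Finset Pool.Agent.Helper26.AF Pool.Agent.Helper96.AW

/-- Log-convexity of the Gamma function at distance `1/2`. -/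
theorem gamma_half (a : ℝ) (ha : 0 < a) :
    Real.Gamma (a + 1 / 2) ≤ √a * Real.Gamma a ∧
      a * Real.Gamma a ≤ √(a + 1 / 2) * Real.Gamma (a + 1 / 2) := by
  have hconv : ∀ b : ℝ, 0 < b → Real.Gamma (b + 1 / 2) ^ 2 ≤ Real.Gamma b * Real.Gamma (b + 1) := by
    intro b hb
    have h := Real.Gamma_mul_add_mul_le_rpow_Gamma_mul_rpow_Gamma (s := b) (t := b + 1)
      (a := 1 / 2) (b := 1 / 2) hb (by linarith) (by norm_num) (by norm_num) (by norm_num)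
    have e1 : 1 / 2 * b + 1 / 2 * (b + 1) = b + 1 / 2 := by ring
    rw [e1, ← Real.sqrt_eq_rpow, ← Real.sqrt_eq_rpow] at h
    have hg : 0 < Real.Gamma b := Real.Gamma_pos_of_pos hb
    have hg1 : 0 < Real.Gamma (b + 1) := Real.Gamma_pos_of_pos (by linarith)
    have h0 : 0 < Real.Gamma (b + 1 / 2) := Real.Gamma_pos_of_pos (by linarith)
    calc Real.Gamma (b + 1 / 2) ^ 2 ≤ (√(Real.Gamma b) * √(Real.Gamma (b + 1))) ^ 2 :=
          pow_le_pow_left₀ h0.le h 2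
      _ = _ := by rw [mul_pow, Real.sq_sqrt hg.le, Real.sq_sqrt hg1.le]
  have hg : 0 < Real.Gamma a := Real.Gamma_pos_of_pos ha
  have hh : 0 < Real.Gamma (a + 1 / 2) := Real.Gamma_pos_of_pos (by linarith)
  constructor
  · have h1 := hconv a ha
    rw [Real.Gamma_add_one ha.ne'] at h1
    refine le_of_sq_le_sq ?_ (by positivity)
    rw [mul_pow, Real.sq_sqrt ha.le]
    nlinarith
  · have h1 := hconv (a + 1 / 2) (by linarith)
    have e1 : a + 1 / 2 + 1 / 2 = a + 1 := by ring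
    rw [e1, Real.Gamma_add_one (by linarith : a + 1 / 2 ≠ 0), Real.Gamma_add_one ha.ne'] at h1
    refine le_of_sq_le_sq ?_ (by positivity)
    rw [mul_pow (√(a + 1 / 2)), Real.sq_sqrt (by linarith)]
    nlinarith

/-- `c = ee s/(2^(3s/2) Γ(3s/2))`. -/
noncomputable def cc (s : ℕ) : ℝ :=
  ee s / (2 ^ (3 * (s : ℝ) / 2) * Real.Gamma (3 * (s : ℝ) / 2))

theorem ee_pos (s : ℕ) : 0 < ee s := by
  unfold ee
  have : 0 < Nat.doubleFactorial (6 * s - 1) := Nat.doubleFactorial_pos _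
  positivity

theorem cc_pos (s : ℕ) (hs : 1 ≤ s) : 0 < cc s := by
  have h : 0 < 3 * (s : ℝ) / 2 := by positivity
  have := Real.Gamma_pos_of_pos h
  have := ee_pos s
  unfold cc
  positivity

/-- Bounds for `cc s ^ 2` by `ee s ^ 2 / (3s-1)!`. -/
theorem cc_sq (s : ℕ) (hs : 1 ≤ s) :
    cc s ^ 2 ≤ √(3 * (s : ℝ) / 2) / (2 * √Real.pi) * (ee s ^ 2 / ((3 * s - 1).factorial : ℝ)) ∧
    1 / (2 * √Real.pi) * (ee s ^ 2 / ((3 * s - 1).factorial : ℝ)) ≤ cc s ^ 2 := by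
  set a : ℝ := 3 * (s : ℝ) / 2 with ha
  have hs1 : (1 : ℝ) ≤ s := by exact_mod_cast hs
  have ha0 : 0 < a := by rw [ha]; positivity
  set g : ℝ := Real.Gamma a with hg
  set h : ℝ := Real.Gamma (a + 1 / 2) with hh
  have hg0 : 0 < g := Real.Gamma_pos_of_pos ha0
  have hh0 : 0 < h := Real.Gamma_pos_of_pos (by linarith)
  obtain ⟨h1, h2⟩ := gamma_half a ha0
  rw [← hg, ← hh] at h1 h2
  have hdup : g * h = ((3 * s - 1).factorial : ℝ) * (2 / 2 ^ (3 * s)) * √Real.pi := by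
    have h3 := Real.Gamma_mul_Gamma_add_half a
    rw [← hg, ← hh] at h3
    rw [h3]
    have e1 : 2 * a = ((3 * s - 1 : ℕ) : ℝ) + 1 := by
      rw [ha, Nat.cast_sub (by omega)]
      push_cast; ring
    have e2 : (2 : ℝ) ^ (1 - 2 * a) = 2 / 2 ^ (3 * s) := by
      have : 1 - 2 * a = 1 - ((3 * s : ℕ) : ℝ) := by rw [ha]; push_cast; ring
      rw [this, Real.rpow_sub (by norm_num), Real.rpow_one, Real.rpow_natCast]
    rw [e2, e1, Real.Gamma_nat_eq_factorial]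
  have hpow : ((2 : ℝ) ^ a) ^ 2 = 2 ^ (3 * s) := by
    rw [← Real.rpow_natCast, ← Real.rpow_mul (by norm_num)]
    have : a * ((2 : ℕ) : ℝ) = ((3 * s : ℕ) : ℝ) := by rw [ha]; push_cast; ring
    rw [this, Real.rpow_natCast]
  have hc : cc s ^ 2 = ee s ^ 2 / (2 ^ (3 * s) * g ^ 2) := by
    unfold cc
    rw [div_pow, mul_pow, hpow]
  have hf : (0 : ℝ) < ((3 * s - 1).factorial : ℝ) := by positivity
  have hpi : 0 < √Real.pi := Real.sqrt_pos.2 Real.pi_pos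
  have hE : 0 < ee s ^ 2 := pow_pos (ee_pos s) 2
  have hGH : 2 ^ (3 * s) * (g * h) = 2 * √Real.pi * ((3 * s - 1).factorial : ℝ) := by
    rw [hdup]; field_simp
  constructor
  · have h3 : cc s ^ 2 ≤ ee s ^ 2 * √a / (2 ^ (3 * s) * (g * h)) := by
      rw [hc, div_le_div_iff₀ (by positivity) (by positivity)]
      have h4 : g * h ≤ √a * g ^ 2 := by nlinarith
      calc ee s ^ 2 * (2 ^ (3 * s) * (g * h)) = (ee s ^ 2 * 2 ^ (3 * s)) * (g * h) := by ring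
        _ ≤ (ee s ^ 2 * 2 ^ (3 * s)) * (√a * g ^ 2) :=
          mul_le_mul_of_nonneg_left h4 (by positivity)
        _ = _ := by ring
    rw [hGH] at h3
    refine h3.trans (le_of_eq ?_)
    field_simp
  · have h3 : ee s ^ 2 * 1 / (2 ^ (3 * s) * (g * h)) ≤ cc s ^ 2 := by
      rw [hc, div_le_div_iff₀ (by positivity) (by positivity)]
      have h4 : g ≤ h := by
        have h5 : √(a + 1 / 2) ≤ a := by
          rw [Real.sqrt_le_left ha0.le]
          have : 3 / 2 ≤ a := by rw [ha]; linarith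
          nlinarith
        have h6 : a * g ≤ a * h := h2.trans (mul_le_mul_of_nonneg_right h5 hh0.le)
        exact le_of_mul_le_mul_left h6 ha0
      have h5 : g ^ 2 ≤ g * h := by nlinarith
      calc ee s ^ 2 * 1 * (2 ^ (3 * s) * g ^ 2) = (ee s ^ 2 * 2 ^ (3 * s)) * g ^ 2 := by ring
        _ ≤ (ee s ^ 2 * 2 ^ (3 * s)) * (g * h) := mul_le_mul_of_nonneg_left h5 (by positivity)
        _ = _ := by ring
    rw [hGH] at h3
    refine le_trans (le_of_eq ?_) h3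
    field_simp

/-- `ee s ^ 2/(3s-1)!` is `(e/(12 s))^s` up to powers of `s`. -/
theorem ee_sq (hE : StmtEEB) (s : ℕ) (hs : 1 ≤ s) :
    ee s ^ 2 / ((3 * s - 1).factorial : ℝ)
      ≤ 9 * Real.exp 1 * (s : ℝ) ^ 2 / √(3 * s) * (Real.exp 1 / (12 * s)) ^ s ∧
    1 / (1200 * (s : ℝ) ^ 3) * (Real.exp 1 / (12 * s)) ^ s
      ≤ ee s ^ 2 / ((3 * s - 1).factorial : ℝ) := by
  obtain ⟨h1, h2⟩ := hE s hs
  have hs0 : (0 : ℝ) < s := by positivity
  have hf : (0 : ℝ) < ((3 * s - 1).factorial : ℝ) := by positivity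
  set θ : ℝ := ee s / ((3 * s - 1).factorial : ℝ) * (3 * (s : ℝ)) ^ (2 * s) *
    Real.exp (-(2 * (s : ℝ))) with hθ
  have hee : ee s = θ * ((3 * s - 1).factorial : ℝ) / (3 * (s : ℝ)) ^ (2 * s) *
      Real.exp (2 * (s : ℝ)) := by
    rw [hθ]
    have h3 : Real.exp (-((s : ℝ) * 2)) * Real.exp ((s : ℝ) * 2) = 1 := by
      rw [← Real.exp_add]; simp
    have h4 : (3 * (s : ℝ)) ^ (2 * s) ≠ 0 := by positivity
    field_simp
    rw [mul_assoc, h3, mul_one]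
  have hfac : ((3 * s).factorial : ℝ) = 3 * s * ((3 * s - 1).factorial : ℝ) := by
    obtain ⟨j, hj⟩ : ∃ j, 3 * s = j + 1 := ⟨3 * s - 1, by omega⟩
    have hj' : (3 * (s : ℝ)) = (j : ℝ) + 1 := by exact_mod_cast hj
    rw [hj, Nat.add_sub_cancel, Nat.factorial_succ, hj']
    push_cast; ring
  -- main identity
  have hmain : ee s ^ 2 / ((3 * s - 1).factorial : ℝ)
      = θ ^ 2 * 4 ^ s * (((3 * s - 1).factorial : ℝ) / ((3 * (s : ℝ)) / Real.exp 1) ^ (3 * s)) *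
        (Real.exp 1 / (12 * s)) ^ s := by
    rw [hee]
    have e1 : Real.exp (2 * (s : ℝ)) ^ 2 = Real.exp 1 ^ (4 * s) := by
      rw [← Real.exp_nat_mul, ← Real.exp_nat_mul]
      congr 1; push_cast; ring
    have e2 : ((3 * (s : ℝ)) / Real.exp 1) ^ (3 * s) = (3 * (s : ℝ)) ^ (3 * s) / Real.exp 1 ^ (3 * s) :=
      div_pow _ _ _
    have e3 : (Real.exp 1 / (12 * s)) ^ s = Real.exp 1 ^ s / (4 ^ s * (3 * (s : ℝ)) ^ s) := by
      rw [div_pow, ← mul_pow]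
      congr 2; ring
    rw [e2, e3, mul_pow, div_pow, e1, mul_pow]
    have e4 : Real.exp 1 ^ (4 * s) = Real.exp 1 ^ (3 * s) * Real.exp 1 ^ s := by
      rw [← pow_add]; congr 1; ring
    have e5 : ((3 * (s : ℝ)) ^ (2 * s)) ^ 2 = (3 * (s : ℝ)) ^ (3 * s) * (3 * (s : ℝ)) ^ s := by
      rw [← pow_mul, ← pow_add]; congr 1; ring
    rw [e4, e5]
    have h4 : (3 * (s : ℝ)) ^ (3 * s) ≠ 0 := by positivity
    have h5 : (3 * (s : ℝ)) ^ s ≠ 0 := by positivity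
    have h6 : Real.exp 1 ^ (3 * s) ≠ 0 := by positivity
    have h7 : (4 : ℝ) ^ s ≠ 0 := by positivity
    field_simp
  have hT : 0 < (Real.exp 1 / (12 * s)) ^ s := by positivity
  have hW : 0 < ((3 * (s : ℝ)) / Real.exp 1) ^ (3 * s) := by positivity
  have hθ0 : 0 < θ := lt_of_lt_of_le (by positivity) h2
  constructor
  · rw [hmain]
    refine mul_le_mul_of_nonneg_right ?_ hT.le
    have h3 : θ ^ 2 * 4 ^ s ≤ 9 * (s : ℝ) ^ 2 := by
      have h4 : θ ^ 2 ≤ (3 * s / 2 ^ s) ^ 2 := pow_le_pow_left₀ hθ0.le h1 2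
      have h5 : (3 * (s : ℝ) / 2 ^ s) ^ 2 * 4 ^ s = 9 * (s : ℝ) ^ 2 := by
        have : (4 : ℝ) ^ s = (2 ^ s) ^ 2 := by rw [← pow_mul, mul_comm, pow_mul]; norm_num
        rw [this, div_pow]
        field_simp
        ring
      calc θ ^ 2 * 4 ^ s ≤ (3 * s / 2 ^ s) ^ 2 * 4 ^ s :=
            mul_le_mul_of_nonneg_right h4 (by positivity)
        _ = _ := h5
    have h4 : ((3 * s - 1).factorial : ℝ) / ((3 * (s : ℝ)) / Real.exp 1) ^ (3 * s)
        ≤ Real.exp 1 / √(3 * s) := by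
      have h5 := AU.fact_le (3 * s) (by omega)
      rw [hfac] at h5
      push_cast at h5
      rw [div_le_div_iff₀ hW (by positivity)]
      have h6 : √(3 * (s : ℝ)) * √(3 * (s : ℝ)) = 3 * s := Real.mul_self_sqrt (by positivity)
      have h7 : 0 < √(3 * (s : ℝ)) := by positivity
      have h8 : √(3 * (s : ℝ)) * (((3 * s - 1).factorial : ℝ) * √(3 * s))
          ≤ √(3 * (s : ℝ)) * (Real.exp 1 * (3 * (s : ℝ) / Real.exp 1) ^ (3 * s)) := by
        calc √(3 * (s : ℝ)) * (((3 * s - 1).factorial : ℝ) * √(3 * s))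
            = (√(3 * (s : ℝ)) * √(3 * (s : ℝ))) * ((3 * s - 1).factorial : ℝ) := by ring
          _ = 3 * s * ((3 * s - 1).factorial : ℝ) := by rw [h6]
          _ ≤ _ := h5
          _ = _ := by ring
      exact le_of_mul_le_mul_left h8 h7
    calc θ ^ 2 * 4 ^ s * (((3 * s - 1).factorial : ℝ) / ((3 * (s : ℝ)) / Real.exp 1) ^ (3 * s))
        ≤ (9 * (s : ℝ) ^ 2) * (Real.exp 1 / √(3 * s)) :=
          mul_le_mul h3 h4 (by positivity) (by positivity)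
      _ = _ := by ring
  · rw [hmain]
    refine mul_le_mul_of_nonneg_right ?_ hT.le
    have h3 : 1 / (400 * (s : ℝ) ^ 2) ≤ θ ^ 2 * 4 ^ s := by
      have h4 : (1 / (20 * (s : ℝ) * 2 ^ s)) ^ 2 ≤ θ ^ 2 := pow_le_pow_left₀ (by positivity) h2 2
      have h5 : (1 / (20 * (s : ℝ) * 2 ^ s)) ^ 2 * 4 ^ s = 1 / (400 * (s : ℝ) ^ 2) := by
        have : (4 : ℝ) ^ s = (2 ^ s) ^ 2 := by rw [← pow_mul, mul_comm, pow_mul]; norm_num
        rw [this, div_pow]
        field_simp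
        ring
      calc 1 / (400 * (s : ℝ) ^ 2) = (1 / (20 * (s : ℝ) * 2 ^ s)) ^ 2 * 4 ^ s := h5.symm
        _ ≤ θ ^ 2 * 4 ^ s := mul_le_mul_of_nonneg_right h4 (by positivity)
    have h4 : 1 / (3 * (s : ℝ))
        ≤ ((3 * s - 1).factorial : ℝ) / ((3 * (s : ℝ)) / Real.exp 1) ^ (3 * s) := by
      rw [div_le_div_iff₀ (by positivity) hW, one_mul]
      have h5 := Stirling.le_factorial_stirling (3 * s)
      push_cast at h5
      have h6 : 1 ≤ √(2 * Real.pi * (3 * (s : ℝ))) := by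
        rw [Real.one_le_sqrt]
        have := Real.pi_gt_three
        have : (1 : ℝ) ≤ s := by exact_mod_cast hs
        nlinarith
      have h7 : ((3 * (s : ℝ)) / Real.exp 1) ^ (3 * s) ≤ ((3 * s).factorial : ℝ) :=
        le_trans (le_mul_of_one_le_left hW.le h6) h5
      rw [hfac] at h7
      linarith
    calc 1 / (1200 * (s : ℝ) ^ 3) = 1 / (400 * (s : ℝ) ^ 2) * (1 / (3 * (s : ℝ))) := by
          field_simp; norm_num
      _ ≤ _ := mul_le_mul h3 h4 (by positivity) (by positivity)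

theorem main (hE : StmtEEB) : Pool.Agent.Helper96.AW.S_AA := by
  refine ⟨100, by norm_num, fun s hs x hx => ?_⟩
  have hs1 : (1 : ℝ) ≤ s := by exact_mod_cast hs
  have hs0 : (0 : ℝ) < s := by linarith
  set T : ℝ := (Real.exp 1 / (12 * s)) ^ ((s : ℝ) / 2) with hT
  have hb : 0 < Real.exp 1 / (12 * s) := by positivity
  have hT0 : 0 < T := Real.rpow_pos_of_pos hb _
  have hT2 : T ^ 2 = (Real.exp 1 / (12 * s)) ^ s := by
    rw [hT, ← Real.rpow_natCast, ← Real.rpow_mul hb.le]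
    have : (s : ℝ) / 2 * ((2 : ℕ) : ℝ) = (s : ℝ) := by push_cast; ring
    rw [this, Real.rpow_natCast]
  have hx1 : x⁻¹ * (Real.exp 1 * x ^ 3 / (12 * s)) ^ ((s : ℝ) / 2)
      = x ^ (3 * (s : ℝ) / 2 - 1) * T := by
    have e1 : Real.exp 1 * x ^ 3 / (12 * s) = x ^ 3 * (Real.exp 1 / (12 * s)) := by ring
    rw [e1, Real.mul_rpow (by positivity) hb.le, ← Real.rpow_natCast x 3, ← Real.rpow_mul hx.le,
      Real.rpow_sub hx, Real.rpow_one]
    have e2 : ((3 : ℕ) : ℝ) * ((s : ℝ) / 2) = 3 * (s : ℝ) / 2 := by push_cast; ring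
    rw [e2, hT]
    field_simp
  have hx2 : ee s * ww s x = x ^ (3 * (s : ℝ) / 2 - 1) * cc s := by
    unfold ww cc; ring
  rw [hx1, hx2]
  have hxp : 0 < x ^ (3 * (s : ℝ) / 2 - 1) := Real.rpow_pos_of_pos hx _
  have hc0 := cc_pos s hs
  obtain ⟨a1, a2⟩ := cc_sq s hs
  obtain ⟨b1, b2⟩ := ee_sq hE s hs
  rw [← hT2] at b1 b2
  have hpi := Real.pi_gt_three
  have hpi4 := Real.pi_lt_four
  have hsp1 : 1 ≤ √Real.pi := by rw [Real.one_le_sqrt]; linarith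
  have hsp2 : √Real.pi ≤ 2 := by
    rw [Real.sqrt_le_left (by norm_num)]; linarith
  have hsp0 : 0 < √Real.pi := by linarith
  have he3 : Real.exp 1 < 3 := lt_trans Real.exp_one_lt_d9 (by norm_num)
  -- upper bound
  have hup : cc s ≤ 100 * (s : ℝ) ^ 3 * T := by
    refine le_of_sq_le_sq ?_ (by positivity)
    have h1 : cc s ^ 2 ≤ 27 * (s : ℝ) ^ 2 * T ^ 2 := by
      have h2 : √(3 * (s : ℝ) / 2) / (2 * √Real.pi) ≤ √(3 * (s : ℝ)) := by
        rw [div_le_iff₀ (by positivity)]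
        have h3 : √(3 * (s : ℝ) / 2) ≤ √(3 * (s : ℝ)) := Real.sqrt_le_sqrt (by linarith)
        have h4 : 0 ≤ √(3 * (s : ℝ)) := Real.sqrt_nonneg _
        nlinarith
      calc cc s ^ 2 ≤ √(3 * (s : ℝ) / 2) / (2 * √Real.pi) * (ee s ^ 2 / ((3 * s - 1).factorial : ℝ)) := a1
        _ ≤ √(3 * (s : ℝ)) * (9 * Real.exp 1 * (s : ℝ) ^ 2 / √(3 * s) * T ^ 2) :=
          mul_le_mul h2 b1 (by positivity) (by positivity)
        _ = 9 * Real.exp 1 * (s : ℝ) ^ 2 * T ^ 2 := by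
          have : √(3 * (s : ℝ)) ≠ 0 := by positivity
          field_simp
        _ ≤ 27 * (s : ℝ) ^ 2 * T ^ 2 := by
          have : 0 ≤ (s : ℝ) ^ 2 * T ^ 2 := by positivity
          nlinarith
    have h2 : (1 : ℝ) ≤ (s : ℝ) ^ 4 := one_le_pow₀ hs1
    calc cc s ^ 2 ≤ 27 * (s : ℝ) ^ 2 * T ^ 2 := h1
      _ = 27 * ((s : ℝ) ^ 2 * T ^ 2) * 1 := by ring
      _ ≤ 27 * ((s : ℝ) ^ 2 * T ^ 2) * (s : ℝ) ^ 4 := mul_le_mul_of_nonneg_left h2 (by positivity)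
      _ ≤ 10000 * ((s : ℝ) ^ 2 * T ^ 2) * (s : ℝ) ^ 4 := by
          have : 0 ≤ ((s : ℝ) ^ 2 * T ^ 2) * (s : ℝ) ^ 4 := by positivity
          nlinarith
      _ = (100 * (s : ℝ) ^ 3 * T) ^ 2 := by ring
  have hlo : T ≤ 100 * (s : ℝ) ^ 3 * cc s := by
    refine le_of_sq_le_sq ?_ (by positivity)
    have h1 : T ^ 2 ≤ 4800 * (s : ℝ) ^ 3 * cc s ^ 2 := by
      have h2 : 1 / 4 ≤ 1 / (2 * √Real.pi) := by
        rw [div_le_div_iff₀ (by norm_num) (by positivity)]; linarith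
      have h3 : 1 / 4 * (1 / (1200 * (s : ℝ) ^ 3) * T ^ 2) ≤ cc s ^ 2 :=
        (mul_le_mul h2 b2 (by positivity) (by positivity)).trans a2
      have h4 : 1 / 4 * (1 / (1200 * (s : ℝ) ^ 3) * T ^ 2) = T ^ 2 / (4800 * (s : ℝ) ^ 3) := by
        field_simp; norm_num
      rw [h4, div_le_iff₀ (by positivity)] at h3
      linarith
    have h2 : (1 : ℝ) ≤ (s : ℝ) ^ 3 := one_le_pow₀ hs1
    calc T ^ 2 ≤ 4800 * (s : ℝ) ^ 3 * cc s ^ 2 := h1
      _ = 4800 * ((s : ℝ) ^ 3 * cc s ^ 2) * 1 := by ring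
      _ ≤ 4800 * ((s : ℝ) ^ 3 * cc s ^ 2) * (s : ℝ) ^ 3 :=
          mul_le_mul_of_nonneg_left h2 (by positivity)
      _ ≤ 10000 * ((s : ℝ) ^ 3 * cc s ^ 2) * (s : ℝ) ^ 3 := by
          have : 0 ≤ ((s : ℝ) ^ 3 * cc s ^ 2) * (s : ℝ) ^ 3 := by positivity
          nlinarith
      _ = (100 * (s : ℝ) ^ 3 * cc s) ^ 2 := by ring
  constructor
  · calc x ^ (3 * (s : ℝ) / 2 - 1) * cc s ≤ x ^ (3 * (s : ℝ) / 2 - 1) * (100 * (s : ℝ) ^ 3 * T) :=
        mul_le_mul_of_nonneg_left hup hxp.le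
      _ = _ := by ring
  · calc x ^ (3 * (s : ℝ) / 2 - 1) * T ≤ x ^ (3 * (s : ℝ) / 2 - 1) * (100 * (s : ℝ) ^ 3 * cc s) :=
        mul_le_mul_of_nonneg_left hlo hxp.le
      _ = _ := by ring

theorem t : Pool.Agent.Helper96.AW.S_AA := main Pool.Agent.Helper28.AF.goalEEB

end Pool.Agent.Helper22.AW.AA
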