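import Pool.Agent.Helper96.AW.GoalsB

/-!
Project AW, packet AR: `∑_(k ≤ n) k^(k-2) (τ e^(-τ))^k/k! ≤ τ - τ^2/2` for `0 ≤ τ ≤ 1`.

Proof.  `c a = (a+1)^a/(a+1)!`, `Q(z) = ∑_(a<N) c a z^a`.  Abel's identity gives
`m c m = ∑_(a<m) c a (m-a) c (m-1-a)`, so `Q' ≤ Q (z Q)'` for `z ≥ 0`, `Q e^(-z Q)` is nonincreasing,
`Q ≤ e^(z Q)`.  With `z = τ e^(-τ)` and continuity `z Q ≤ τ`, and the derivative of
`τ - τ^2/2 - S(τ e^(-τ))` is `(1-τ)(1 - Q e^(-τ)) ≥ 0`.
-/

set_option autoImplicit false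

namespace Pool.Agent.Helper22.AW.AR

open Finset

theorem fd (n j : ℕ) (h : j < n) :
    ∑ i ∈ range (n + 1), ((-1 : ℝ) ^ (n - i) * (n.choose i : ℝ)) * (i : ℝ) ^ j = 0 := by
  have h1 := fwdDiff_iter_eq_sum_shift (M := ℝ) (G := ℝ) (h := 1) (fun r : ℝ => r ^ j) n 0
  rw [fwdDiff_iter_pow_eq_zero_of_lt h] at h1
  rw [Pi.zero_apply] at h1
  rw [h1]
  refine Finset.sum_congr rfl fun i _ => ?_
  simp [zsmul_eq_mul]

theorem abelId (n : ℕ) : ∀ y : ℝ,
    ∑ a ∈ range (n + 1), ((n + 1).choose (a + 1) : ℝ) * ((a : ℝ) + 1) ^ a *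
      (y + ((n : ℝ) - a)) ^ (n - a) = ((n : ℝ) + 1) * (y + n + 1) ^ n := by
  induction n with
  | zero => intro y; simp
  | succ n ih =>
    have hd : ∀ y : ℝ, HasDerivAt (fun y : ℝ =>
        ∑ a ∈ range (n + 1 + 1), ((n + 1 + 1).choose (a + 1) : ℝ) * ((a : ℝ) + 1) ^ a *
          (y + (((n + 1 : ℕ) : ℝ) - a)) ^ (n + 1 - a)
          - (((n + 1 : ℕ) : ℝ) + 1) * (y + ((n + 1 : ℕ) : ℝ) + 1) ^ (n + 1)) 0 y := by
      intro y
      have h1 : HasDerivAt (fun y : ℝ =>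
          ∑ a ∈ range (n + 1 + 1), ((n + 1 + 1).choose (a + 1) : ℝ) * ((a : ℝ) + 1) ^ a *
          (y + (((n + 1 : ℕ) : ℝ) - a)) ^ (n + 1 - a))
          (∑ a ∈ range (n + 1 + 1), ((n + 1 + 1).choose (a + 1) : ℝ) * ((a : ℝ) + 1) ^ a *
          (((n + 1 - a : ℕ) : ℝ) * (y + (((n + 1 : ℕ) : ℝ) - a)) ^ (n + 1 - a - 1) * 1)) y := by
        refine HasDerivAt.fun_sum fun a _ => HasDerivAt.const_mul _ ?_
        exact HasDerivAt.fun_pow ((hasDerivAt_id y).add_const _) _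
      have h2 : HasDerivAt (fun y : ℝ =>
          (((n + 1 : ℕ) : ℝ) + 1) * (y + ((n + 1 : ℕ) : ℝ) + 1) ^ (n + 1))
          ((((n + 1 : ℕ) : ℝ) + 1) * (((n + 1 : ℕ) : ℝ) * (y + ((n + 1 : ℕ) : ℝ) + 1) ^ (n + 1 - 1) * 1)) y := by
        refine HasDerivAt.const_mul _ ?_
        exact HasDerivAt.fun_pow (((hasDerivAt_id y).add_const _).add_const _) _
      have h3 := h1.sub h2
      have h4 : (∑ a ∈ range (n + 1 + 1), ((n + 1 + 1).choose (a + 1) : ℝ) * ((a : ℝ) + 1) ^ a *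
          (((n + 1 - a : ℕ) : ℝ) * (y + (((n + 1 : ℕ) : ℝ) - a)) ^ (n + 1 - a - 1) * 1))
          - ((((n + 1 : ℕ) : ℝ) + 1) * (((n + 1 : ℕ) : ℝ) * (y + ((n + 1 : ℕ) : ℝ) + 1) ^ (n + 1 - 1) * 1)) = 0 := by
        rw [Finset.sum_range_succ]
        have h5 : ∑ a ∈ range (n + 1), ((n + 1 + 1).choose (a + 1) : ℝ) * ((a : ℝ) + 1) ^ a *
          (((n + 1 - a : ℕ) : ℝ) * (y + (((n + 1 : ℕ) : ℝ) - a)) ^ (n + 1 - a - 1) * 1)
          = ((n : ℝ) + 2) * ∑ a ∈ range (n + 1), ((n + 1).choose (a + 1) : ℝ) * ((a : ℝ) + 1) ^ a *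
            ((y + 1) + ((n : ℝ) - a)) ^ (n - a) := by
          rw [Finset.mul_sum]
          refine Finset.sum_congr rfl fun a ha => ?_
          have ha' : a ≤ n := by simpa [Nat.lt_succ_iff] using ha
          have e1 : ((n + 1 + 1).choose (a + 1) : ℝ) * ((n + 1 - a : ℕ) : ℝ)
              = ((n : ℝ) + 2) * ((n + 1).choose (a + 1) : ℝ) := by
            have := Nat.choose_mul_succ_eq (n + 1) (a + 1)
            have e2 : n + 1 + 1 - (a + 1) = n + 1 - a := by omega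
            rw [e2] at this
            have h6 : (((n + 1).choose (a + 1) * (n + 1 + 1) : ℕ) : ℝ)
              = (((n + 1 + 1).choose (a + 1) * (n + 1 - a) : ℕ) : ℝ) := by rw [this]
            rw [Nat.cast_mul, Nat.cast_mul] at h6
            rw [← h6]
            push_cast
            ring
          have e3 : n + 1 - a - 1 = n - a := by omega
          have e4 : y + (((n + 1 : ℕ) : ℝ) - a) = (y + 1) + ((n : ℝ) - a) := by push_cast; ring
          rw [e3, e4]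
          calc _ = (((n + 1 + 1).choose (a + 1) : ℝ) * ((n + 1 - a : ℕ) : ℝ)) * ((a : ℝ) + 1) ^ a *
              (y + 1 + ((n : ℝ) - a)) ^ (n - a) := by ring
            _ = _ := by rw [e1]; ring
        rw [h5, ih (y + 1)]
        simp only [Nat.sub_self, Nat.add_sub_cancel]
        push_cast
        ring
      rw [h4] at h3
      exact h3
    have hconst : ∀ y z : ℝ, (fun y : ℝ =>
        ∑ a ∈ range (n + 1 + 1), ((n + 1 + 1).choose (a + 1) : ℝ) * ((a : ℝ) + 1) ^ a *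
          (y + (((n + 1 : ℕ) : ℝ) - a)) ^ (n + 1 - a)
          - (((n + 1 : ℕ) : ℝ) + 1) * (y + ((n + 1 : ℕ) : ℝ) + 1) ^ (n + 1)) y
        = (fun y : ℝ =>
        ∑ a ∈ range (n + 1 + 1), ((n + 1 + 1).choose (a + 1) : ℝ) * ((a : ℝ) + 1) ^ a *
          (y + (((n + 1 : ℕ) : ℝ) - a)) ^ (n + 1 - a)
          - (((n + 1 : ℕ) : ℝ) + 1) * (y + ((n + 1 : ℕ) : ℝ) + 1) ^ (n + 1)) z := by
      refine is_const_of_deriv_eq_zero (fun y => (hd y).differentiableAt) fun y => (hd y).deriv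
    intro y
    have hz : (fun y : ℝ =>
        ∑ a ∈ range (n + 1 + 1), ((n + 1 + 1).choose (a + 1) : ℝ) * ((a : ℝ) + 1) ^ a *
          (y + (((n + 1 : ℕ) : ℝ) - a)) ^ (n + 1 - a)
          - (((n + 1 : ℕ) : ℝ) + 1) * (y + ((n + 1 : ℕ) : ℝ) + 1) ^ (n + 1)) (-(((n + 2 : ℕ)) : ℝ)) = 0 := by
      have e1 : (-(((n + 2 : ℕ)) : ℝ) + ((n + 1 : ℕ) : ℝ) + 1) = 0 := by push_cast; ring
      simp only [e1]
      have h6 := fd (n + 2) (n + 1) (by omega)
      rw [Finset.sum_range_succ'] at h6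
      have h7 : ∑ a ∈ range (n + 1 + 1), ((n + 1 + 1).choose (a + 1) : ℝ) * ((a : ℝ) + 1) ^ a *
          (-(((n + 2 : ℕ)) : ℝ) + (((n + 1 : ℕ) : ℝ) - a)) ^ (n + 1 - a)
          = ∑ k ∈ range (n + 2), (-1 : ℝ) ^ (n + 2 - (k + 1)) * ((n + 2).choose (k + 1) : ℝ) *
            ((k + 1 : ℕ) : ℝ) ^ (n + 1) := by
        refine Finset.sum_congr rfl fun a ha => ?_
        have ha' : a ≤ n + 1 := by simpa [Nat.lt_succ_iff] using ha
        have e2 : (-(((n + 2 : ℕ)) : ℝ) + (((n + 1 : ℕ) : ℝ) - a)) = (-1) * ((a : ℝ) + 1) := by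
          push_cast; ring
        have e3 : n + 2 - (a + 1) = n + 1 - a := by omega
        rw [e2, e3, mul_pow]
        have e4 : ((a + 1 : ℕ) : ℝ) ^ (n + 1) = ((a : ℝ) + 1) ^ a * ((a : ℝ) + 1) ^ (n + 1 - a) := by
          rw [← pow_add]; push_cast
          congr 1; omega
        rw [e4]; ring
      rw [h7]
      have h8 : ∑ k ∈ range (n + 2), (-1 : ℝ) ^ (n + 2 - (k + 1)) * ((n + 2).choose (k + 1) : ℝ) *
            ((k + 1 : ℕ) : ℝ) ^ (n + 1) = 0 := by
        simpa using h6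
      rw [h8]; simp
    have := hconst y (-(((n + 2 : ℕ)) : ℝ))
    rw [hz] at this
    have h9 := sub_eq_zero.mp this
    rw [h9]

/-- The coefficients. -/
noncomputable def cf (a : ℕ) : ℝ := ((a : ℝ) + 1) ^ a / ((a + 1).factorial : ℝ)

theorem cf_nonneg (a : ℕ) : 0 ≤ cf a := by unfold cf; positivity

theorem cf_rec (m : ℕ) : (m : ℝ) * cf m
    = ∑ a ∈ range m, cf a * (((m - 1 - a : ℕ) : ℝ) + 1) * cf (m - 1 - a) := by
  have h := abelId m 0
  rw [Finset.sum_range_succ] at h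
  have h0 : ∑ a ∈ range m, ((m + 1).choose (a + 1) : ℝ) * ((a : ℝ) + 1) ^ a *
      (0 + ((m : ℝ) - a)) ^ (m - a) = (m : ℝ) * ((m : ℝ) + 1) ^ m := by
    have : ((m + 1).choose (m + 1) : ℝ) * ((m : ℝ) + 1) ^ m * (0 + ((m : ℝ) - m)) ^ (m - m)
      = ((m : ℝ) + 1) ^ m := by simp
    rw [this] at h
    have h2 : (0 + (m : ℝ) + 1) = (m : ℝ) + 1 := by ring
    rw [h2] at h
    linarith
  have hf : ((m + 1).factorial : ℝ) ≠ 0 := by positivity
  have h1 : ∑ a ∈ range m, cf a * (((m - 1 - a : ℕ) : ℝ) + 1) * cf (m - 1 - a)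
      = (∑ a ∈ range m, ((m + 1).choose (a + 1) : ℝ) * ((a : ℝ) + 1) ^ a *
      (0 + ((m : ℝ) - a)) ^ (m - a)) / ((m + 1).factorial : ℝ) := by
    rw [Finset.sum_div]
    refine Finset.sum_congr rfl fun a ha => ?_
    have ha' : a < m := by simpa using ha
    obtain ⟨b, rfl⟩ : ∃ b, m = a + 1 + b := ⟨m - (a + 1), by omega⟩
    have e1 : a + 1 + b - 1 - a = b := by omega
    have e2 : a + 1 + b - a = b + 1 := by omega
    rw [e1, e2]
    have e3 : ((a + 1 + b + 1).choose (a + 1) : ℝ)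
      = ((a + 1 + b + 1).factorial : ℝ) / (((a + 1).factorial : ℝ) * ((b + 1).factorial : ℝ)) := by
      rw [Nat.cast_choose ℝ (by omega : a + 1 ≤ a + 1 + b + 1)]
      congr 4
      omega
    rw [e3]
    unfold cf
    have hf2 : ((a + 1 + b + 1).factorial : ℝ) ≠ 0 := by positivity
    have hf3 : ((a + 1).factorial : ℝ) ≠ 0 := by positivity
    have hf4 : ((b + 1).factorial : ℝ) ≠ 0 := by positivity
    have e5 : (0 + (((a + 1 + b : ℕ) : ℝ) - a)) = (b : ℝ) + 1 := by push_cast; ring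
    rw [e5]
    field_simp
    ring
  rw [h1, h0]
  unfold cf
  ring

/-- The polynomial `Q`. -/
noncomputable def Q (N : ℕ) (z : ℝ) : ℝ := ∑ a ∈ range N, cf a * z ^ a

/-- Its derivative. -/
noncomputable def Q' (N : ℕ) (z : ℝ) : ℝ := ∑ a ∈ range N, cf a * ((a : ℝ) * z ^ (a - 1))

theorem hasDeriv (N : ℕ) (z : ℝ) : HasDerivAt (Q N) (Q' N z) z := by
  unfold Q Q'
  refine HasDerivAt.fun_sum fun a _ => HasDerivAt.const_mul _ ?_
  simpa using hasDerivAt_pow a z

theorem Q_nonneg (N : ℕ) (z : ℝ) (hz : 0 ≤ z) : 0 ≤ Q N z := by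
  unfold Q
  exact Finset.sum_nonneg fun a _ => mul_nonneg (cf_nonneg a) (pow_nonneg hz a)

theorem Q'_le (N : ℕ) (z : ℝ) (hz : 0 ≤ z) : Q' N z ≤ Q N z * (Q N z + z * Q' N z) := by
  have h1 : Q N z + z * Q' N z = ∑ b ∈ range N, ((b : ℝ) + 1) * cf b * z ^ b := by
    unfold Q Q'
    rw [Finset.mul_sum, ← Finset.sum_add_distrib]
    refine Finset.sum_congr rfl fun b _ => ?_
    rcases b with _ | b
    · simp
    · simp only [Nat.add_sub_cancel, pow_succ]
      ring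
  rw [h1]
  have h2 : Q' N z = ∑ m ∈ range N, ∑ a ∈ range m,
      cf a * (((m - 1 - a : ℕ) : ℝ) + 1) * cf (m - 1 - a) * z ^ (m - 1) := by
    unfold Q'
    refine Finset.sum_congr rfl fun m _ => ?_
    rw [← Finset.sum_mul, ← cf_rec]
    ring
  rw [h2]
  have h3 : ∑ m ∈ range N, ∑ a ∈ range m,
      cf a * (((m - 1 - a : ℕ) : ℝ) + 1) * cf (m - 1 - a) * z ^ (m - 1)
      = ∑ a ∈ range N, ∑ m ∈ Ico (a + 1) N,
      cf a * (((m - 1 - a : ℕ) : ℝ) + 1) * cf (m - 1 - a) * z ^ (m - 1) := by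
    refine Finset.sum_comm' fun m a => ?_
    simp only [Finset.mem_range, Finset.mem_Ico]
    omega
  rw [h3]
  unfold Q
  rw [Finset.sum_mul]
  refine Finset.sum_le_sum fun a ha => ?_
  rw [Finset.sum_Ico_eq_sum_range, Finset.mul_sum]
  have h4 : ∀ b, cf a * (((a + 1 + b - 1 - a : ℕ) : ℝ) + 1) * cf (a + 1 + b - 1 - a) *
      z ^ (a + 1 + b - 1) = cf a * z ^ a * (((b : ℝ) + 1) * cf b * z ^ b) := by
    intro b
    have e1 : a + 1 + b - 1 - a = b := by omega
    have e2 : a + 1 + b - 1 = a + b := by omega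
    rw [e1, e2, pow_add]
    ring
  rw [Finset.sum_congr rfl fun b _ => h4 b]
  refine Finset.sum_le_sum_of_subset_of_nonneg ?_ ?_
  · intro b hb
    simp only [Finset.mem_range] at hb ⊢
    omega
  · intro b _ _
    have := cf_nonneg a
    have := cf_nonneg b
    positivity

theorem Q_le_exp (N : ℕ) (z : ℝ) (hz : 0 ≤ z) : Q N z ≤ Real.exp (z * Q N z) := by
  rcases Nat.eq_zero_or_pos N with rfl | hN
  · simp [Q]
  have hanti : AntitoneOn (fun z => Q N z * Real.exp (-(z * Q N z))) (Set.Ici 0) := by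
    have hd : ∀ z : ℝ, HasDerivAt (fun z => Q N z * Real.exp (-(z * Q N z)))
        (Q' N z * Real.exp (-(z * Q N z)) +
          Q N z * (Real.exp (-(z * Q N z)) * (-(1 * Q N z + z * Q' N z)))) z := by
      intro z
      have h1 := hasDeriv N z
      have h2 : HasDerivAt (fun z => -(z * Q N z)) (-(1 * Q N z + z * Q' N z)) z :=
        ((hasDerivAt_id z).mul h1).neg
      exact h1.mul h2.exp
    refine antitoneOn_of_deriv_nonpos (convex_Ici 0)
      (fun z _ => (hd z).continuousAt.continuousWithinAt)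
      (fun z _ => (hd z).differentiableAt.differentiableWithinAt) ?_
    intro z hz
    rw [interior_Ici] at hz
    rw [(hd z).deriv]
    have h1 := Q'_le N z (le_of_lt hz)
    have h2 := Real.exp_pos (-(z * Q N z))
    nlinarith
  have h := hanti (Set.mem_Ici.mpr le_rfl) (Set.mem_Ici.mpr hz) hz
  have h0 : Q N 0 = 1 := by
    unfold Q
    rw [Finset.sum_eq_single 0]
    · simp [cf]
    · intro b _ hb
      simp [hb]
    · intro h; simp at h; omega
  simp only [h0, zero_mul, neg_zero, Real.exp_zero, mul_one] at h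
  rw [Real.exp_neg] at h
  have h2 := Real.exp_pos (z * Q N z)
  rw [← div_eq_mul_inv, div_le_one h2] at h
  exact h

/-- `x e^(-x)` is strictly increasing on `[0,1]`. -/
theorem xe_strict : StrictMonoOn (fun x : ℝ => x * Real.exp (-x)) (Set.Icc 0 1) := by
  have hd : ∀ x : ℝ, HasDerivAt (fun x : ℝ => x * Real.exp (-x))
      (1 * Real.exp (-x) + x * (Real.exp (-x) * (-1))) x := by
    intro x
    exact (hasDerivAt_id x).mul ((hasDerivAt_neg x).exp)
  refine strictMonoOn_of_deriv_pos (convex_Icc 0 1)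
    (fun x _ => (hd x).continuousAt.continuousWithinAt) ?_
  intro x hx
  rw [interior_Icc] at hx
  rw [(hd x).deriv]
  have h := Real.exp_pos (-x)
  nlinarith [hx.1, hx.2]

theorem T_le (N : ℕ) (τ : ℝ) (h0 : 0 ≤ τ) (h1 : τ < 1) :
    τ * Real.exp (-τ) * Q N (τ * Real.exp (-τ)) ≤ τ := by
  by_contra hlt
  push Not at hlt
  set z := τ * Real.exp (-τ) with hz
  have hz0 : 0 ≤ z := by positivity
  have hcont : ContinuousOn (fun w => w * Q N w) (Set.Icc 0 z) := by
    intro w _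
    exact ((hasDerivAt_id w).mul (hasDeriv N w)).continuousAt.continuousWithinAt
  have hivt := intermediate_value_Icc hz0 hcont
  obtain ⟨v, hv1, hv2⟩ : ∃ v, τ < v ∧ v < min 1 (z * Q N z) := exists_between (lt_min h1 hlt)
  have hv3 : v < 1 := lt_of_lt_of_le hv2 (min_le_left _ _)
  have hv4 : v < z * Q N z := lt_of_lt_of_le hv2 (min_le_right _ _)
  obtain ⟨w, hw, hwv⟩ := hivt ⟨by simp; linarith, hv4.le⟩
  have hwv' : w * Q N w = v := hwv
  have h2 := Q_le_exp N w hw.1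
  rw [hwv'] at h2
  have h3 : v ≤ w * Real.exp v := by
    calc v = w * Q N w := hwv'.symm
      _ ≤ w * Real.exp v := mul_le_mul_of_nonneg_left h2 hw.1
  have h4 : v * Real.exp (-v) ≤ w := by
    rw [Real.exp_neg, ← div_eq_mul_inv, div_le_iff₀ (Real.exp_pos v)]
    exact h3
  have h5 := xe_strict (Set.mem_Icc.mpr ⟨h0, h1.le⟩)
    (Set.mem_Icc.mpr ⟨h0.trans hv1.le, hv3.le⟩) hv1
  simp only at h5
  have h6 : w ≤ z := hw.2
  rw [hz] at h6
  linarith

theorem t : Pool.Agent.Helper96.AW.S_AR := by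
  intro τ n h0 h1
  set F : ℝ → ℝ := fun τ => τ - τ ^ 2 / 2 - ∑ k ∈ Icc 1 n,
    (k : ℝ) ^ (k - 2) * (τ * Real.exp (-τ)) ^ k / (k.factorial : ℝ) with hF
  have hd : ∀ x : ℝ, HasDerivAt F
      ((1 - x) * (1 - Real.exp (-x) * Q n (x * Real.exp (-x)))) x := by
    intro x
    have e1 : HasDerivAt (fun x : ℝ => x * Real.exp (-x))
      (1 * Real.exp (-x) + x * (Real.exp (-x) * (-1))) x :=
      (hasDerivAt_id x).mul ((hasDerivAt_neg x).exp)
    have e2 : HasDerivAt (fun x : ℝ => ∑ k ∈ Icc 1 n,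
        (k : ℝ) ^ (k - 2) * (x * Real.exp (-x)) ^ k / (k.factorial : ℝ))
        (∑ k ∈ Icc 1 n, (k : ℝ) ^ (k - 2) * ((k : ℝ) * (x * Real.exp (-x)) ^ (k - 1) *
          (1 * Real.exp (-x) + x * (Real.exp (-x) * (-1)))) / (k.factorial : ℝ)) x := by
      refine HasDerivAt.fun_sum fun k _ => ?_
      exact (HasDerivAt.const_mul _ (HasDerivAt.fun_pow e1 k)).div_const _
    have e3 : HasDerivAt (fun x : ℝ => x - x ^ 2 / 2) (1 - ((2 : ℕ) : ℝ) * x ^ (2 - 1) * 1 / 2) x :=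
      (hasDerivAt_id x).sub ((HasDerivAt.fun_pow (hasDerivAt_id x) 2).div_const 2)
    have e4 := e3.sub e2
    have e5 : (1 - ((2 : ℕ) : ℝ) * x ^ (2 - 1) * 1 / 2) - ∑ k ∈ Icc 1 n, (k : ℝ) ^ (k - 2) * ((k : ℝ) * (x * Real.exp (-x)) ^ (k - 1) *
          (1 * Real.exp (-x) + x * (Real.exp (-x) * (-1)))) / (k.factorial : ℝ)
        = (1 - x) * (1 - Real.exp (-x) * Q n (x * Real.exp (-x))) := by
      have e6 : ∑ k ∈ Icc 1 n, (k : ℝ) ^ (k - 2) * ((k : ℝ) * (x * Real.exp (-x)) ^ (k - 1) *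
          (1 * Real.exp (-x) + x * (Real.exp (-x) * (-1)))) / (k.factorial : ℝ)
          = (1 - x) * Real.exp (-x) * Q n (x * Real.exp (-x)) := by
        unfold Q
        rw [Finset.range_eq_Ico, Finset.mul_sum, Finset.sum_Ico_eq_sum_range]
        have e7 : Icc 1 n = Ico 1 (n + 1) := by ext; simp [Nat.lt_succ_iff]
        rw [e7, Finset.sum_Ico_eq_sum_range]
        simp only [Nat.add_sub_cancel, Nat.sub_zero]
        refine Finset.sum_congr rfl fun k _ => ?_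
        unfold cf
        have e8 : (1 + k : ℕ) = k + 1 := by ring
        rw [e8]
        simp only [Nat.add_sub_cancel, zero_add]
        have e9 : (((k + 1 : ℕ) : ℝ)) ^ (k + 1 - 2) * (((k + 1 : ℕ) : ℝ)) = ((k : ℝ) + 1) ^ k := by
          rcases k with _ | k
          · simp
          · have : k + 1 + 1 - 2 = k := by omega
            rw [this, ← pow_succ]
            push_cast
            ring
        calc _ = ((((k + 1 : ℕ) : ℝ)) ^ (k + 1 - 2) * (((k + 1 : ℕ) : ℝ))) *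
              ((x * Real.exp (-x)) ^ k * ((1 - x) * Real.exp (-x))) / ((k + 1).factorial : ℝ) := by
              ring
          _ = _ := by rw [e9]; ring
      rw [e6]
      norm_num
      ring
    rw [e5] at e4
    exact e4
  have hmono : MonotoneOn F (Set.Icc 0 1) := by
    refine monotoneOn_of_deriv_nonneg (convex_Icc 0 1)
      (fun x _ => (hd x).continuousAt.continuousWithinAt)
      (fun x _ => (hd x).differentiableAt.differentiableWithinAt) ?_
    intro x hx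
    rw [interior_Icc] at hx
    rw [(hd x).deriv]
    have h2 := T_le n x hx.1.le hx.2
    refine mul_nonneg (by linarith [hx.2]) ?_
    have h3 : Real.exp (-x) * Q n (x * Real.exp (-x)) ≤ 1 := by
      have h4 : x * (Real.exp (-x) * Q n (x * Real.exp (-x))) ≤ x * 1 := by
        calc _ = x * Real.exp (-x) * Q n (x * Real.exp (-x)) := by ring
          _ ≤ x := h2
          _ = x * 1 := by ring
      exact le_of_mul_le_mul_left h4 hx.1
    linarith
  have h := hmono (Set.mem_Icc.mpr ⟨le_rfl, zero_le_one⟩) (Set.mem_Icc.mpr ⟨h0, h1⟩) h0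
  have hF0 : F 0 = 0 := by
    simp only [hF]
    have : ∑ k ∈ Icc 1 n, (k : ℝ) ^ (k - 2) * (0 * Real.exp (-0)) ^ k / (k.factorial : ℝ) = 0 := by
      refine Finset.sum_eq_zero fun k hk => ?_
      have : k ≠ 0 := by
        have := (Finset.mem_Icc.mp hk).1
        omega
      simp [this]
    rw [this]; norm_num
  rw [hF0] at h
  simp only [hF] at h
  linarith

end Pool.Agent.Helper22.AW.AR
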