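import Pool.Agent.Helper22.AW.AR

/-!
Project AW, packet AS: `∑_(k ≤ n) Nc k 0 (τ e^(-τ))^k/k! ≤ (1/2) log (1/(1-τ)) + C`.

Proof.  `k Nc k 0 ≤ (1/2) ∑_(s=1)^k (k)_s k^(k-s)`, so `Nc k 0/k! ≤ R k/(2 k)`, `R k = ∑_(j<k) k^j/j!`.
With `e k = k^k/k!` the identity `∑_(a ≤ k) e a e (k-a) = ∑_(j ≤ k) k^j/j!` gives for the partial sums
`∑ R k z^k ≤ D + D^2`, `D = ∑_(1 ≤ k ≤ n) e k z^k = z T'`; and `D (1 - T) ≤ T ≤ τ` (packet AR), so the
derivative of `∑ R k z^k/(2k)` along `z = τ e^(-τ)` is at most `1/(2(1-τ))`.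
-/

set_option autoImplicit false

namespace Pool.Agent.Helper22.AW.AS

open Finset Pool.Agent.Helper22.AW.AR

theorem fdf (n : ℕ) :
    ∑ i ∈ range (n + 1), ((-1 : ℝ) ^ (n - i) * (n.choose i : ℝ)) * (i : ℝ) ^ n = (n.factorial : ℝ) := by
  have h1 := fwdDiff_iter_eq_sum_shift (M := ℝ) (G := ℝ) (h := 1) (fun r : ℝ => r ^ n) n 0
  rw [fwdDiff_iter_eq_factorial] at h1
  have h2 : ((n.factorial : ℝ → ℝ)) 0 = (n.factorial : ℝ) := by simp
  rw [← h2, h1]
  refine Finset.sum_congr rfl fun i _ => ?_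
  simp [zsmul_eq_mul]

theorem choose_sub (k a : ℕ) (ha : a ≤ k) :
    ((k + 1).choose a : ℝ) * ((k + 1 - a : ℕ) : ℝ) = ((k : ℝ) + 1) * (k.choose a : ℝ) := by
  have := Nat.choose_mul_succ_eq k a
  have h6 : ((k.choose a * (k + 1) : ℕ) : ℝ) = (((k + 1).choose a * (k + 1 - a) : ℕ) : ℝ) := by
    rw [this]
  rw [Nat.cast_mul, Nat.cast_mul] at h6
  rw [← h6]
  push_cast
  ring

theorem hur (k : ℕ) : ∀ y : ℝ,
    ∑ a ∈ range (k + 1), (k.choose a : ℝ) * (a : ℝ) ^ a * (y + ((k : ℝ) - a)) ^ (k - a)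
      = ∑ j ∈ range (k + 1), (k.choose j : ℝ) * (j.factorial : ℝ) * (y + k) ^ (k - j) := by
  induction k with
  | zero => intro y; simp
  | succ k ih =>
    have hd : ∀ y : ℝ, HasDerivAt (fun y : ℝ =>
        ∑ a ∈ range (k + 1 + 1), ((k + 1).choose a : ℝ) * (a : ℝ) ^ a *
          (y + (((k + 1 : ℕ) : ℝ) - a)) ^ (k + 1 - a)
        - ∑ j ∈ range (k + 1 + 1), ((k + 1).choose j : ℝ) * (j.factorial : ℝ) *
          (y + ((k + 1 : ℕ) : ℝ)) ^ (k + 1 - j)) 0 y := by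
      intro y
      have h1 : HasDerivAt (fun y : ℝ =>
          ∑ a ∈ range (k + 1 + 1), ((k + 1).choose a : ℝ) * (a : ℝ) ^ a *
          (y + (((k + 1 : ℕ) : ℝ) - a)) ^ (k + 1 - a))
          (∑ a ∈ range (k + 1 + 1), ((k + 1).choose a : ℝ) * (a : ℝ) ^ a *
          (((k + 1 - a : ℕ) : ℝ) * (y + (((k + 1 : ℕ) : ℝ) - a)) ^ (k + 1 - a - 1) * 1)) y := by
        refine HasDerivAt.fun_sum fun a _ => HasDerivAt.const_mul _ ?_
        exact HasDerivAt.fun_pow ((hasDerivAt_id y).add_const _) _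
      have h2 : HasDerivAt (fun y : ℝ =>
          ∑ j ∈ range (k + 1 + 1), ((k + 1).choose j : ℝ) * (j.factorial : ℝ) *
          (y + ((k + 1 : ℕ) : ℝ)) ^ (k + 1 - j))
          (∑ j ∈ range (k + 1 + 1), ((k + 1).choose j : ℝ) * (j.factorial : ℝ) *
          (((k + 1 - j : ℕ) : ℝ) * (y + ((k + 1 : ℕ) : ℝ)) ^ (k + 1 - j - 1) * 1)) y := by
        refine HasDerivAt.fun_sum fun a _ => HasDerivAt.const_mul _ ?_
        exact HasDerivAt.fun_pow ((hasDerivAt_id y).add_const _) _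
      have h3 := h1.sub h2
      have h4 : (∑ a ∈ range (k + 1 + 1), ((k + 1).choose a : ℝ) * (a : ℝ) ^ a *
          (((k + 1 - a : ℕ) : ℝ) * (y + (((k + 1 : ℕ) : ℝ) - a)) ^ (k + 1 - a - 1) * 1))
          = ((k : ℝ) + 1) * ∑ a ∈ range (k + 1), (k.choose a : ℝ) * (a : ℝ) ^ a *
            ((y + 1) + ((k : ℝ) - a)) ^ (k - a) := by
        rw [Finset.sum_range_succ, Finset.mul_sum]
        simp only [Nat.sub_self, Nat.cast_zero, zero_mul, mul_zero, add_zero]
        refine Finset.sum_congr rfl fun a ha => ?_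
        have ha' : a ≤ k := by simpa [Nat.lt_succ_iff] using ha
        have e3 : k + 1 - a - 1 = k - a := by omega
        have e4 : y + (((k + 1 : ℕ) : ℝ) - a) = (y + 1) + ((k : ℝ) - a) := by push_cast; ring
        rw [e3, e4]
        calc _ = (((k + 1).choose a : ℝ) * ((k + 1 - a : ℕ) : ℝ)) * (a : ℝ) ^ a *
            (y + 1 + ((k : ℝ) - a)) ^ (k - a) := by ring
          _ = _ := by rw [choose_sub k a ha']; ring
      have h5 : (∑ j ∈ range (k + 1 + 1), ((k + 1).choose j : ℝ) * (j.factorial : ℝ) *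
          (((k + 1 - j : ℕ) : ℝ) * (y + ((k + 1 : ℕ) : ℝ)) ^ (k + 1 - j - 1) * 1))
          = ((k : ℝ) + 1) * ∑ j ∈ range (k + 1), (k.choose j : ℝ) * (j.factorial : ℝ) *
            ((y + 1) + k) ^ (k - j) := by
        rw [Finset.sum_range_succ, Finset.mul_sum]
        simp only [Nat.sub_self, Nat.cast_zero, zero_mul, mul_zero, add_zero]
        refine Finset.sum_congr rfl fun a ha => ?_
        have ha' : a ≤ k := by simpa [Nat.lt_succ_iff] using ha
        have e3 : k + 1 - a - 1 = k - a := by omega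
        have e4 : y + ((k + 1 : ℕ) : ℝ) = (y + 1) + k := by push_cast; ring
        rw [e3, e4]
        calc _ = (((k + 1).choose a : ℝ) * ((k + 1 - a : ℕ) : ℝ)) * (a.factorial : ℝ) *
            (y + 1 + k) ^ (k - a) := by ring
          _ = _ := by rw [choose_sub k a ha']; ring
      rw [h4, h5, ih (y + 1), sub_self] at h3
      exact h3
    have hconst : ∀ y z : ℝ, (fun y : ℝ =>
        ∑ a ∈ range (k + 1 + 1), ((k + 1).choose a : ℝ) * (a : ℝ) ^ a *
          (y + (((k + 1 : ℕ) : ℝ) - a)) ^ (k + 1 - a)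
        - ∑ j ∈ range (k + 1 + 1), ((k + 1).choose j : ℝ) * (j.factorial : ℝ) *
          (y + ((k + 1 : ℕ) : ℝ)) ^ (k + 1 - j)) y
        = (fun y : ℝ =>
        ∑ a ∈ range (k + 1 + 1), ((k + 1).choose a : ℝ) * (a : ℝ) ^ a *
          (y + (((k + 1 : ℕ) : ℝ) - a)) ^ (k + 1 - a)
        - ∑ j ∈ range (k + 1 + 1), ((k + 1).choose j : ℝ) * (j.factorial : ℝ) *
          (y + ((k + 1 : ℕ) : ℝ)) ^ (k + 1 - j)) z :=
      is_const_of_deriv_eq_zero (fun y => (hd y).differentiableAt) fun y => (hd y).deriv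
    intro y
    have hz : (fun y : ℝ =>
        ∑ a ∈ range (k + 1 + 1), ((k + 1).choose a : ℝ) * (a : ℝ) ^ a *
          (y + (((k + 1 : ℕ) : ℝ) - a)) ^ (k + 1 - a)
        - ∑ j ∈ range (k + 1 + 1), ((k + 1).choose j : ℝ) * (j.factorial : ℝ) *
          (y + ((k + 1 : ℕ) : ℝ)) ^ (k + 1 - j)) (-(((k + 1 : ℕ)) : ℝ)) = 0 := by
      have h6 := fdf (k + 1)
      have h7 : ∑ a ∈ range (k + 1 + 1), ((k + 1).choose a : ℝ) * (a : ℝ) ^ a *
          (-(((k + 1 : ℕ)) : ℝ) + (((k + 1 : ℕ) : ℝ) - a)) ^ (k + 1 - a)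
          = ∑ i ∈ range (k + 1 + 1), ((-1 : ℝ) ^ (k + 1 - i) * ((k + 1).choose i : ℝ)) *
            (i : ℝ) ^ (k + 1) := by
        refine Finset.sum_congr rfl fun a ha => ?_
        have ha' : a ≤ k + 1 := by simpa [Nat.lt_succ_iff] using ha
        have e2 : (-(((k + 1 : ℕ)) : ℝ) + (((k + 1 : ℕ) : ℝ) - a)) = (-1) * (a : ℝ) := by
          push_cast; ring
        have e4 : (a : ℝ) ^ (k + 1) = (a : ℝ) ^ a * (a : ℝ) ^ (k + 1 - a) := by
          rw [← pow_add]; congr 1; omega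
        rw [e2, mul_pow, e4]
        ring
      have h8 : ∑ j ∈ range (k + 1 + 1), ((k + 1).choose j : ℝ) * (j.factorial : ℝ) *
          (-(((k + 1 : ℕ)) : ℝ) + ((k + 1 : ℕ) : ℝ)) ^ (k + 1 - j) = ((k + 1).factorial : ℝ) := by
        rw [Finset.sum_range_succ]
        have : ∑ j ∈ range (k + 1), ((k + 1).choose j : ℝ) * (j.factorial : ℝ) *
          (-(((k + 1 : ℕ)) : ℝ) + ((k + 1 : ℕ) : ℝ)) ^ (k + 1 - j) = 0 := by
          refine Finset.sum_eq_zero fun j hj => ?_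
          have hj' : j < k + 1 := by simpa using hj
          have e1 : k + 1 - j ≠ 0 := by omega
          rw [neg_add_cancel, zero_pow e1, mul_zero]
        rw [this]
        simp
      simp only [h7, h8, h6, sub_self]
    have := hconst y (-(((k + 1 : ℕ)) : ℝ))
    rw [hz] at this
    have h9 := sub_eq_zero.mp this
    rw [h9]

/-- `k^k/k!`. -/
noncomputable def e (k : ℕ) : ℝ := (k : ℝ) ^ k / (k.factorial : ℝ)

theorem e_nonneg (k : ℕ) : 0 ≤ e k := by unfold e; positivity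

theorem e_conv (k : ℕ) : ∑ a ∈ range (k + 1), e a * e (k - a)
    = ∑ i ∈ range (k + 1), (k : ℝ) ^ i / (i.factorial : ℝ) := by
  have h := hur k 0
  have hf : (k.factorial : ℝ) ≠ 0 := by positivity
  have h1 : ∑ a ∈ range (k + 1), e a * e (k - a)
      = (∑ a ∈ range (k + 1), (k.choose a : ℝ) * (a : ℝ) ^ a *
        (0 + ((k : ℝ) - a)) ^ (k - a)) / (k.factorial : ℝ) := by
    rw [Finset.sum_div]
    refine Finset.sum_congr rfl fun a ha => ?_
    have ha' : a ≤ k := by simpa [Nat.lt_succ_iff] using ha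
    rw [Nat.cast_choose ℝ ha']
    unfold e
    have e1 : ((k - a : ℕ) : ℝ) = (k : ℝ) - a := by
      rw [Nat.cast_sub ha']
    rw [e1, zero_add]
    have hf3 : (a.factorial : ℝ) ≠ 0 := by positivity
    have hf4 : ((k - a).factorial : ℝ) ≠ 0 := by positivity
    field_simp
  rw [h1, h, Finset.sum_div]
  rw [← Finset.sum_range_reflect]
  refine Finset.sum_congr rfl fun i hi => ?_
  have hi' : i ≤ k := by simpa [Nat.lt_succ_iff] using hi
  have e1 : k + 1 - 1 - i = k - i := by omega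
  have e2 : k - (k - i) = i := by omega
  rw [e1, e2, Nat.cast_choose ℝ (by omega : k - i ≤ k), e2, zero_add]
  have hf3 : (i.factorial : ℝ) ≠ 0 := by positivity
  have hf4 : ((k - i).factorial : ℝ) ≠ 0 := by positivity
  field_simp

/-- `D = z T'`. -/
noncomputable def D (N : ℕ) (z : ℝ) : ℝ := ∑ k ∈ Icc 1 N, e k * z ^ k

theorem D_nonneg (N : ℕ) (z : ℝ) (hz : 0 ≤ z) : 0 ≤ D N z := by
  unfold D
  exact Finset.sum_nonneg fun a _ => mul_nonneg (e_nonneg a) (pow_nonneg hz a)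

theorem D_eq (N : ℕ) (z : ℝ) : D N z = z * (Q N z + z * Q' N z) := by
  have h1 : Q N z + z * Q' N z = ∑ b ∈ range N, ((b : ℝ) + 1) * cf b * z ^ b := by
    unfold Q Q'
    rw [Finset.mul_sum, ← Finset.sum_add_distrib]
    refine Finset.sum_congr rfl fun b _ => ?_
    rcases b with _ | b
    · simp
    · simp only [Nat.add_sub_cancel, pow_succ]
      ring
  rw [h1, Finset.mul_sum]
  unfold D
  have e7 : Icc 1 N = Ico 1 (N + 1) := by ext; simp
  rw [e7, Finset.sum_Ico_eq_sum_range]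
  simp only [Nat.add_sub_cancel]
  refine Finset.sum_congr rfl fun b _ => ?_
  unfold e cf
  rw [Nat.add_comm 1 b]
  push_cast
  rw [pow_succ, pow_succ]
  ring

theorem D_le (N : ℕ) (τ : ℝ) (h0 : 0 ≤ τ) (h1 : τ < 1) :
    D N (τ * Real.exp (-τ)) ≤ τ / (1 - τ) := by
  set z := τ * Real.exp (-τ) with hz
  have hz0 : 0 ≤ z := by positivity
  have h2 := Q'_le N z hz0
  have h3 : z * Q N z ≤ τ := T_le N τ h0 h1
  have h4 : D N z - z * Q N z ≤ z * Q N z * D N z := by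
    rw [D_eq]
    have := mul_le_mul_of_nonneg_left h2 (mul_nonneg hz0 hz0)
    nlinarith
  have h5 := D_nonneg N z hz0
  rw [le_div_iff₀ (by linarith)]
  nlinarith

theorem R_le (N : ℕ) (z : ℝ) (hz : 0 ≤ z) :
    ∑ k ∈ Icc 1 N, (∑ i ∈ range k, (k : ℝ) ^ i / (i.factorial : ℝ)) * z ^ k
      ≤ D N z + D N z ^ 2 := by
  have hV : ∑ k ∈ range (N + 1), e k * z ^ k = 1 + D N z := by
    unfold D
    rw [Finset.sum_range_eq_add_Ico _ (by omega : 0 < N + 1)]
    have e7 : Icc 1 N = Ico 1 (N + 1) := by ext; simp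
    rw [e7]
    simp [e]
  have h1 : ∑ k ∈ range (N + 1), (∑ i ∈ range (k + 1), (k : ℝ) ^ i / (i.factorial : ℝ)) * z ^ k
      ≤ (1 + D N z) ^ 2 := by
    rw [← hV, sq, Finset.sum_mul]
    have h2 : ∑ k ∈ range (N + 1), (∑ i ∈ range (k + 1), (k : ℝ) ^ i / (i.factorial : ℝ)) * z ^ k
        = ∑ k ∈ range (N + 1), ∑ a ∈ range (k + 1), e a * e (k - a) * z ^ k := by
      refine Finset.sum_congr rfl fun k _ => ?_
      rw [← e_conv, Finset.sum_mul]
    rw [h2]
    have h3 : ∑ k ∈ range (N + 1), ∑ a ∈ range (k + 1), e a * e (k - a) * z ^ k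
        = ∑ a ∈ range (N + 1), ∑ k ∈ Ico a (N + 1), e a * e (k - a) * z ^ k := by
      refine Finset.sum_comm' fun m a => ?_
      simp only [Finset.mem_range, Finset.mem_Ico]
      omega
    rw [h3]
    refine Finset.sum_le_sum fun a ha => ?_
    rw [Finset.sum_Ico_eq_sum_range, Finset.mul_sum]
    have h4 : ∀ b, e a * e (a + b - a) * z ^ (a + b) = e a * z ^ a * (e b * z ^ b) := by
      intro b
      have e1 : a + b - a = b := by omega
      rw [e1, pow_add]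
      ring
    rw [Finset.sum_congr rfl fun b _ => h4 b]
    refine Finset.sum_le_sum_of_subset_of_nonneg ?_ ?_
    · intro b hb
      simp only [Finset.mem_range] at hb ⊢
      omega
    · intro b _ _
      have := e_nonneg a
      have := e_nonneg b
      positivity
  rw [Finset.sum_range_eq_add_Ico _ (by omega : 0 < N + 1)] at h1
  have e7 : Ico 1 (N + 1) = Icc 1 N := by ext; simp
  rw [e7] at h1
  have h5 : ∑ k ∈ Icc 1 N, (∑ i ∈ range (k + 1), (k : ℝ) ^ i / (i.factorial : ℝ)) * z ^ k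
      = ∑ k ∈ Icc 1 N, (∑ i ∈ range k, (k : ℝ) ^ i / (i.factorial : ℝ)) * z ^ k + D N z := by
    unfold D
    rw [← Finset.sum_add_distrib]
    refine Finset.sum_congr rfl fun k _ => ?_
    rw [Finset.sum_range_succ, add_mul]
    rfl
  rw [h5] at h1
  simp at h1
  nlinarith

theorem Nc_le (h1 : ∀ k : ℕ, Pool.Agent.Helper26.AF.Nc k 0 * k
      ≤ ∑ s ∈ Icc 1 k, k.choose s * Pool.Agent.Helper26.AF.Kc s 0 * (s * k ^ (k - s)))
    (h2 : ∀ s : ℕ, 2 * s * Pool.Agent.Helper26.AF.Kc s 0 ≤ s.factorial ∧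
      (s ≤ 2 → Pool.Agent.Helper26.AF.Kc s 0 = 0)) (k : ℕ) (hk : 1 ≤ k) :
    (Pool.Agent.Helper26.AF.Nc k 0 : ℝ) / (k.factorial : ℝ)
      ≤ (∑ i ∈ range k, (k : ℝ) ^ i / (i.factorial : ℝ)) / (2 * k) := by
  have hk' : (0 : ℝ) < k := by exact_mod_cast hk
  have hf : (0 : ℝ) < (k.factorial : ℝ) := by positivity
  have h3 : (Pool.Agent.Helper26.AF.Nc k 0 : ℝ) * k
      ≤ ∑ s ∈ Icc 1 k, (k.choose s : ℝ) * (Pool.Agent.Helper26.AF.Kc s 0 : ℝ) *
        (s * (k : ℝ) ^ (k - s)) := by exact_mod_cast h1 k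
  have h4 : ∑ s ∈ Icc 1 k, (k.choose s : ℝ) * (Pool.Agent.Helper26.AF.Kc s 0 : ℝ) *
        (s * (k : ℝ) ^ (k - s)) ≤ ∑ s ∈ Icc 1 k, (k.factorial : ℝ) / 2 *
          ((k : ℝ) ^ (k - s) / ((k - s).factorial : ℝ)) := by
    refine Finset.sum_le_sum fun s hs => ?_
    have hs' := Finset.mem_Icc.mp hs
    have h5 : 2 * (s : ℝ) * (Pool.Agent.Helper26.AF.Kc s 0 : ℝ) ≤ (s.factorial : ℝ) := by
      exact_mod_cast (h2 s).1
    rw [Nat.cast_choose ℝ hs'.2]
    have hf3 : (0 : ℝ) < (s.factorial : ℝ) := by positivity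
    have hf4 : (0 : ℝ) < ((k - s).factorial : ℝ) := by positivity
    have h6 : (k.factorial : ℝ) / ((s.factorial : ℝ) * ((k - s).factorial : ℝ)) *
        (Pool.Agent.Helper26.AF.Kc s 0 : ℝ) * (s * (k : ℝ) ^ (k - s))
        = (k.factorial : ℝ) / 2 * ((k : ℝ) ^ (k - s) / ((k - s).factorial : ℝ)) *
          (2 * (s : ℝ) * (Pool.Agent.Helper26.AF.Kc s 0 : ℝ) / (s.factorial : ℝ)) := by
      field_simp
    rw [h6]
    refine mul_le_of_le_one_right (by positivity) ?_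
    rw [div_le_one hf3]
    exact h5
  have h7 : ∑ s ∈ Icc 1 k, (k.factorial : ℝ) / 2 *
          ((k : ℝ) ^ (k - s) / ((k - s).factorial : ℝ))
      = (k.factorial : ℝ) / 2 * ∑ i ∈ range k, (k : ℝ) ^ i / (i.factorial : ℝ) := by
    rw [Finset.mul_sum]
    have e7 : Icc 1 k = Ico 1 (k + 1) := by ext; simp
    rw [e7, Finset.sum_Ico_eq_sum_range]
    simp only [Nat.add_sub_cancel]
    rw [← Finset.sum_range_reflect (fun i => (k.factorial : ℝ) / 2 * ((k : ℝ) ^ i / (i.factorial : ℝ)))]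
    refine Finset.sum_congr rfl fun i hi => ?_
    have hi' : i < k := by simpa using hi
    have e1 : k - (1 + i) = k - 1 - i := by omega
    rw [e1]
  rw [h7] at h4
  rw [div_le_div_iff₀ hf (by positivity)]
  nlinarith

theorem t : Pool.Agent.Helper96.AW.S_AS := by
  intro hT1 hT2
  refine ⟨1, one_pos, fun τ n h0 h1 => ?_⟩
  set F : ℝ → ℝ := fun x => -(1 / 2 * Real.log (1 - x)) - ∑ k ∈ Icc 1 n,
    (∑ i ∈ range k, (k : ℝ) ^ i / (i.factorial : ℝ)) / (2 * k) * (x * Real.exp (-x)) ^ k with hF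
  have hd : ∀ x : ℝ, x < 1 → HasDerivAt F
      (1 / (2 * (1 - x)) - ∑ k ∈ Icc 1 n,
        (∑ i ∈ range k, (k : ℝ) ^ i / (i.factorial : ℝ)) / (2 * k) *
          ((k : ℝ) * (x * Real.exp (-x)) ^ (k - 1) * ((1 - x) * Real.exp (-x)))) x := by
    intro x hx
    have e1 : HasDerivAt (fun x : ℝ => x * Real.exp (-x)) ((1 - x) * Real.exp (-x)) x := by
      have := (hasDerivAt_id x).mul ((hasDerivAt_neg x).exp)
      refine this.congr_deriv ?_
      simp only [id]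
      ring
    have e2 : HasDerivAt (fun x : ℝ => ∑ k ∈ Icc 1 n,
        (∑ i ∈ range k, (k : ℝ) ^ i / (i.factorial : ℝ)) / (2 * k) * (x * Real.exp (-x)) ^ k)
        (∑ k ∈ Icc 1 n, (∑ i ∈ range k, (k : ℝ) ^ i / (i.factorial : ℝ)) / (2 * k) *
          ((k : ℝ) * (x * Real.exp (-x)) ^ (k - 1) * ((1 - x) * Real.exp (-x)))) x := by
      refine HasDerivAt.fun_sum fun k _ => HasDerivAt.const_mul _ ?_
      exact HasDerivAt.fun_pow e1 k
    have e3 : HasDerivAt (fun x : ℝ => -(1 / 2 * Real.log (1 - x))) (1 / (2 * (1 - x))) x := by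
      have h3 : HasDerivAt (fun x : ℝ => 1 - x) (-1) x := by
        simpa using (hasDerivAt_id x).const_sub 1
      have h4 := (h3.log (by linarith)).const_mul (1 / 2 : ℝ)
      refine h4.neg.congr_deriv ?_
      have : (1 - x) ≠ 0 := by linarith
      field_simp
    exact e3.sub e2
  have hmono : MonotoneOn F (Set.Icc 0 τ) := by
    refine monotoneOn_of_deriv_nonneg (convex_Icc 0 τ)
      (fun x hx => (hd x (lt_of_le_of_lt hx.2 h1)).continuousAt.continuousWithinAt)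
      (fun x hx => ?_) ?_
    · rw [interior_Icc] at hx
      exact (hd x (hx.2.trans h1)).differentiableAt.differentiableWithinAt
    intro x hx
    rw [interior_Icc] at hx
    have hx1 : x < 1 := hx.2.trans h1
    rw [(hd x hx1).deriv]
    have hz0 : 0 < x * Real.exp (-x) := mul_pos hx.1 (Real.exp_pos _)
    have h2 := D_le n x hx.1.le hx1
    have h3 := R_le n (x * Real.exp (-x)) hz0.le
    have h4 := D_nonneg n (x * Real.exp (-x)) hz0.le
    have h5 : ∑ k ∈ Icc 1 n,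
        (∑ i ∈ range k, (k : ℝ) ^ i / (i.factorial : ℝ)) / (2 * k) *
          ((k : ℝ) * (x * Real.exp (-x)) ^ (k - 1) * ((1 - x) * Real.exp (-x)))
        = (1 - x) / (2 * x) * ∑ k ∈ Icc 1 n,
          (∑ i ∈ range k, (k : ℝ) ^ i / (i.factorial : ℝ)) * (x * Real.exp (-x)) ^ k := by
      rw [Finset.mul_sum]
      refine Finset.sum_congr rfl fun k hk => ?_
      have hk1 := (Finset.mem_Icc.mp hk).1
      obtain ⟨m, rfl⟩ : ∃ m, k = m + 1 := ⟨k - 1, by omega⟩
      have hm : ((m + 1 : ℕ) : ℝ) ≠ 0 := by positivity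
      have hx0 : x ≠ 0 := hx.1.ne'
      simp only [Nat.add_sub_cancel]
      rw [pow_succ]
      field_simp
    rw [h5]
    have hx0 : x ≠ 0 := hx.1.ne'
    have hx2 : 0 < 1 - x := by linarith
    have h6 : ∑ k ∈ Icc 1 n, (∑ i ∈ range k, (k : ℝ) ^ i / (i.factorial : ℝ)) *
        (x * Real.exp (-x)) ^ k ≤ x / (1 - x) ^ 2 := by
      refine h3.trans ?_
      have h7 : D n (x * Real.exp (-x)) ^ 2 ≤ (x / (1 - x)) ^ 2 :=
        pow_le_pow_left₀ h4 h2 2
      have h8 : x / (1 - x) + (x / (1 - x)) ^ 2 = x / (1 - x) ^ 2 := by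
        field_simp
        ring
      linarith
    have h9 : (1 - x) / (2 * x) * ∑ k ∈ Icc 1 n, (∑ i ∈ range k, (k : ℝ) ^ i / (i.factorial : ℝ)) *
        (x * Real.exp (-x)) ^ k ≤ (1 - x) / (2 * x) * (x / (1 - x) ^ 2) := by
      refine mul_le_mul_of_nonneg_left h6 ?_
      have := hx.1
      positivity
    have h10 : (1 - x) / (2 * x) * (x / (1 - x) ^ 2) = 1 / (2 * (1 - x)) := by
      field_simp
    linarith
  have h := hmono (Set.mem_Icc.mpr ⟨le_rfl, h0⟩) (Set.mem_Icc.mpr ⟨h0, le_rfl⟩) h0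
  have hF0 : F 0 = 0 := by
    simp only [hF]
    have : ∑ k ∈ Icc 1 n, (∑ i ∈ range k, (k : ℝ) ^ i / (i.factorial : ℝ)) / (2 * k) *
        (0 * Real.exp (-0)) ^ k = 0 := by
      refine Finset.sum_eq_zero fun k hk => ?_
      have : k ≠ 0 := by
        have := (Finset.mem_Icc.mp hk).1
        omega
      simp [this]
    rw [this]; simp
  rw [hF0] at h
  simp only [hF] at h
  have hz0 : 0 ≤ τ * Real.exp (-τ) := by positivity
  have h2 : ∑ k ∈ Icc 1 n, (Pool.Agent.Helper26.AF.Nc k 0 : ℝ) * (τ * Real.exp (-τ)) ^ k / (k.factorial : ℝ)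
      ≤ ∑ k ∈ Icc 1 n, (∑ i ∈ range k, (k : ℝ) ^ i / (i.factorial : ℝ)) / (2 * k) *
        (τ * Real.exp (-τ)) ^ k := by
    refine Finset.sum_le_sum fun k hk => ?_
    have h3 := Nc_le hT1 hT2 k (Finset.mem_Icc.mp hk).1
    have h4 := mul_le_mul_of_nonneg_right h3 (pow_nonneg hz0 k)
    calc _ = (Pool.Agent.Helper26.AF.Nc k 0 : ℝ) / (k.factorial : ℝ) * (τ * Real.exp (-τ)) ^ k := by
          ring
      _ ≤ _ := h4
  have h3 : Real.log (1 / (1 - τ)) = -Real.log (1 - τ) := by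
    rw [one_div, Real.log_inv]
  rw [h3]
  linarith

end Pool.Agent.Helper22.AW.AS
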