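import Pool.Agent.Helper22.AW.AU

/-!
Project AW, packet AT: the prefactor.  With `x = l/m`, `d = 1/((1+l) m)`, `m = n^(1/3)` the left side is
at most `e^6 √n exp (n B)`, `B = log (1+x) - d - log (1-d) - (1+x)/2 + (1-d²)/(2(1+x))`,
`n B ≤ -l³/6 + 4`.
-/

set_option autoImplicit false

namespace Pool.Agent.Helper22.AW.AT

open Finset Filter Topology Pool.Agent.Helper26.AF Pool.Agent.Helper96.AW

theorem log_one_sub (d : ℝ) (h0 : 0 ≤ d) (h1 : d ≤ 1 / 2) :
    -Real.log (1 - d) ≤ d + d ^ 2 / 2 + d ^ 3 / 3 + 2 * d ^ 4 := by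
  have hd : |d| < 1 := by rw [abs_of_nonneg h0]; linarith
  have h := Real.abs_log_sub_add_sum_range_le hd 3
  rw [abs_of_nonneg h0] at h
  have h2 := (abs_le.mp h).1
  simp only [Finset.sum_range_succ, Finset.sum_range_zero] at h2
  have h3 : d ^ (3 + 1) / (1 - d) ≤ 2 * d ^ 4 := by
    rw [div_le_iff₀ (by linarith)]
    have : 0 ≤ d ^ 4 := by positivity
    norm_num
    nlinarith
  norm_num at h2 h3
  linarith

theorem log_one_add (x : ℝ) (h0 : 0 ≤ x) (h1 : x ≤ 1 / 2) :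
    Real.log (1 + x) ≤ x - x ^ 2 / 2 + x ^ 3 / 3 + 2 * x ^ 4 := by
  have hd : |(-x)| < 1 := by rw [abs_neg, abs_of_nonneg h0]; linarith
  have h := Real.abs_log_sub_add_sum_range_le hd 3
  rw [abs_neg, abs_of_nonneg h0] at h
  have h2 := (abs_le.mp h).2
  simp only [Finset.sum_range_succ, Finset.sum_range_zero, sub_neg_eq_add] at h2
  have h3 : x ^ (3 + 1) / (1 - x) ≤ 2 * x ^ 4 := by
    rw [div_le_iff₀ (by linarith)]
    have : 0 ≤ x ^ 4 := by positivity
    norm_num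
    nlinarith
  have e1 : (-x) ^ (0 + 1) / ((0 : ℕ) + 1 : ℝ) = -x := by norm_num
  have e2 : (-x) ^ (1 + 1) / ((1 : ℕ) + 1 : ℝ) = x ^ 2 / 2 := by norm_num
  have e3 : (-x) ^ (2 + 1) / ((2 : ℕ) + 1 : ℝ) = -(x ^ 3 / 3) := by
    norm_num
    ring
  rw [e1, e2, e3] at h2
  linarith

/-- The exponent. -/
theorem B_le (x d : ℝ) (hx0 : 0 ≤ x) (hx : x ≤ 1 / 2) (hd0 : 0 ≤ d) (hd : d ≤ 1 / 2) :
    Real.log (1 + x) - d - Real.log (1 - d) - (1 + x) / 2 + (1 - d ^ 2) / (2 * (1 + x))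
      ≤ -x ^ 3 / 6 + d ^ 3 / 3 + 2 * d ^ 4 + 5 / 2 * x ^ 4 + x * d ^ 2 / 2 := by
  have h1 := log_one_add x hx0 hx
  have h2 := log_one_sub d hd0 hd
  have h3 : (1 - d ^ 2) / (2 * (1 + x))
      ≤ (1 - x + x ^ 2 - x ^ 3 + x ^ 4) / 2 - d ^ 2 * (1 - x) / 2 := by
    rw [div_le_iff₀ (by linarith)]
    have e : ((1 - x + x ^ 2 - x ^ 3 + x ^ 4) / 2 - d ^ 2 * (1 - x) / 2) * (2 * (1 + x))
        = 1 - d ^ 2 + x ^ 5 + d ^ 2 * x ^ 2 := by ring
    rw [e]
    have : 0 ≤ x ^ 5 := by positivity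
    have : 0 ≤ d ^ 2 * x ^ 2 := by positivity
    linarith
  linarith

set_option maxHeartbeats 2000000 in
theorem t : Pool.Agent.Helper96.AW.S_AT := by
  refine ⟨Real.exp 10, Real.exp_pos _, fun l hl => ?_⟩
  have htend : Tendsto (fun n : ℕ => (n : ℝ) ^ ((1 : ℝ) / 3)) atTop atTop :=
    (tendsto_rpow_atTop (by norm_num)).comp tendsto_natCast_atTop_atTop
  filter_upwards [eventually_ge_atTop 8, htend.eventually_ge_atTop (2 * l),
    htend.eventually_ge_atTop (5 / 2 * l ^ 4)] with n hn hln hln4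
  set m : ℝ := (n : ℝ) ^ ((1 : ℝ) / 3) with hm
  have hn8 : (8 : ℝ) ≤ n := by exact_mod_cast hn
  have hn0 : (0 : ℝ) < n := by linarith
  have hm0 : 0 < m := Real.rpow_pos_of_pos hn0 _
  have hm3 : m ^ 3 = n := by
    rw [hm, ← Real.rpow_natCast, ← Real.rpow_mul hn0.le]; norm_num
  have hm2 : 2 ≤ m := by
    by_contra h
    push Not at h
    have : m ^ 3 < 2 ^ 3 := pow_lt_pow_left₀ h hm0.le (by norm_num)
    rw [hm3] at this
    linarith
  set x : ℝ := l / m with hx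
  have hx0 : 0 ≤ x := by rw [hx]; positivity
  have hx2 : x ≤ 1 / 2 := by
    rw [hx, div_le_iff₀ hm0]; linarith
  set p : ℝ := pc l n with hp
  have hpe : p = (1 + x) / n := rfl
  have hp0 : 0 < p := by rw [hpe]; positivity
  have hpn : p * n = 1 + x := by rw [hpe]; field_simp
  have hp2 : p ≤ 1 / 2 := by
    rw [hpe, div_le_iff₀ hn0]; linarith
  set d : ℝ := 1 / ((1 + l) * m) with hd
  have hta : ta l n = 1 - d := rfl
  have hd0 : 0 < d := by rw [hd]; positivity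
  have hdm : d ≤ 1 / m := by
    rw [hd]
    refine one_div_le_one_div_of_le hm0 ?_
    nlinarith
  have hd2 : d ≤ 1 / 2 := hdm.trans (one_div_le_one_div_of_le (by norm_num) hm2)
  have huu : uu l n = p / (1 - p) := rfl
  rw [hta, huu]
  -- factor 1
  have f1 : (1 - p) ^ (n.choose 2) ≤ Real.exp (-((1 + x) * n / 2) + (1 + x) / 2) := by
    have h1 : 1 - p ≤ Real.exp (-p) := by
      have := Real.add_one_le_exp (-p); linarith
    have h2 : (1 - p) ^ (n.choose 2) ≤ (Real.exp (-p)) ^ (n.choose 2) :=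
      pow_le_pow_left₀ (by linarith) h1 _
    refine h2.trans (le_of_eq ?_)
    rw [← Real.exp_nat_mul]
    congr 1
    rw [Nat.cast_choose_two]
    have : (n : ℝ) * (n - 1) / 2 * -p = -((p * n) * (n - 1) / 2) := by ring
    rw [this, hpn]
    ring
  -- factor 2
  have f2 : (n.factorial : ℝ) ≤ Real.exp 1 * √n * ((n : ℝ) / Real.exp 1) ^ n :=
    AU.fact_le n (by omega)
  -- factor 3
  have hq : p / (1 - p) ≤ p * Real.exp (2 * p) := by
    rw [div_eq_mul_inv]
    refine mul_le_mul_of_nonneg_left ?_ hp0.le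
    have h1 : 1 + 2 * p ≤ Real.exp (2 * p) := by
      have := Real.add_one_le_exp (2 * p); linarith
    refine le_trans ?_ h1
    rw [inv_le_iff_one_le_mul₀ (by linarith)]
    nlinarith
  have htau : 0 < (1 - d) * Real.exp (-(1 - d)) := mul_pos (by linarith) (Real.exp_pos _)
  have f3 : (p / (1 - p) / ((1 - d) * Real.exp (-(1 - d)))) ^ n
      ≤ (p * Real.exp (2 * p) / ((1 - d) * Real.exp (-(1 - d)))) ^ n :=
    pow_le_pow_left₀ (div_nonneg (div_nonneg hp0.le (by linarith)) htau.le)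
      (div_le_div_of_nonneg_right hq htau.le) n
  -- factor 4
  have f4 : Real.exp ((1 - d - (1 - d) ^ 2 / 2) / (p / (1 - p)))
      ≤ Real.exp (n * ((1 - d ^ 2) / (2 * (1 + x)))) := by
    refine Real.exp_le_exp.2 ?_
    have e1 : 1 - d - (1 - d) ^ 2 / 2 = (1 - d ^ 2) / 2 := by ring
    have e2 : 0 ≤ (1 - d ^ 2) / 2 := by nlinarith
    have h1 : (1 - p) / p ≤ n / (1 + x) := by
      have : (n : ℝ) / (1 + x) = 1 / p := by rw [← hpn]; field_simp
      rw [this]
      exact div_le_div_of_nonneg_right (by linarith) hp0.le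
    rw [e1]
    calc (1 - d ^ 2) / 2 / (p / (1 - p)) = (1 - d ^ 2) / 2 * ((1 - p) / p) := by
          rw [div_div_eq_mul_div]; ring
      _ ≤ (1 - d ^ 2) / 2 * (n / (1 + x)) := mul_le_mul_of_nonneg_left h1 e2
      _ = n * ((1 - d ^ 2) / (2 * (1 + x))) := by field_simp
  -- together
  have hprod : (1 - p) ^ (n.choose 2) * (n.factorial : ℝ) *
      (p / (1 - p) / ((1 - d) * Real.exp (-(1 - d)))) ^ n *
      Real.exp ((1 - d - (1 - d) ^ 2 / 2) / (p / (1 - p)))
      ≤ Real.exp (-((1 + x) * n / 2) + (1 + x) / 2) *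
        (Real.exp 1 * √n * ((n : ℝ) / Real.exp 1) ^ n) *
        (p * Real.exp (2 * p) / ((1 - d) * Real.exp (-(1 - d)))) ^ n *
        Real.exp (n * ((1 - d ^ 2) / (2 * (1 + x)))) := by
    have hA : 0 ≤ (1 - p) ^ (n.choose 2) := pow_nonneg (by linarith) _
    have hC : 0 ≤ (p / (1 - p) / ((1 - d) * Real.exp (-(1 - d)))) ^ n :=
      pow_nonneg (div_nonneg (div_nonneg hp0.le (by linarith)) htau.le) n
    exact mul_le_mul (mul_le_mul (mul_le_mul f1 f2 (by positivity) (Real.exp_pos _).le) f3 hC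
      (by positivity)) f4 (Real.exp_pos _).le (by positivity)
  refine hprod.trans ?_
  set B : ℝ := Real.log (1 + x) - d - Real.log (1 - d) - (1 + x) / 2 + (1 - d ^ 2) / (2 * (1 + x))
    with hB
  have heq : Real.exp (-((1 + x) * n / 2) + (1 + x) / 2) *
        (Real.exp 1 * √n * ((n : ℝ) / Real.exp 1) ^ n) *
        (p * Real.exp (2 * p) / ((1 - d) * Real.exp (-(1 - d)))) ^ n *
        Real.exp (n * ((1 - d ^ 2) / (2 * (1 + x))))
      = √n * Real.exp (1 + (1 + x) / 2 + 2 * (1 + x) + n * B) := by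
    have e1 : ((n : ℝ) / Real.exp 1) ^ n *
        (p * Real.exp (2 * p) / ((1 - d) * Real.exp (-(1 - d)))) ^ n
        = (Real.exp (-1 + Real.log (1 + x) + 2 * p - Real.log (1 - d) + (1 - d))) ^ n := by
      rw [← mul_pow]
      congr 1
      rw [Real.exp_add, Real.exp_sub, Real.exp_add, Real.exp_add, Real.exp_log (by linarith),
        Real.exp_log (by linarith), Real.exp_neg, Real.exp_neg]
      have h1 : (1 - d) ≠ 0 := by linarith
      rw [← hpn]
      have h2 := (Real.exp_pos 1).ne'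
      have h3 := (Real.exp_pos (1 - d)).ne'
      field_simp
    have e2 : Real.exp (-((1 + x) * n / 2) + (1 + x) / 2) *
        (Real.exp 1 * √n * ((n : ℝ) / Real.exp 1) ^ n) *
        (p * Real.exp (2 * p) / ((1 - d) * Real.exp (-(1 - d)))) ^ n *
        Real.exp (n * ((1 - d ^ 2) / (2 * (1 + x))))
        = √n * (Real.exp (-((1 + x) * n / 2) + (1 + x) / 2) * Real.exp 1 *
          (((n : ℝ) / Real.exp 1) ^ n *
        (p * Real.exp (2 * p) / ((1 - d) * Real.exp (-(1 - d)))) ^ n) *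
        Real.exp (n * ((1 - d ^ 2) / (2 * (1 + x))))) := by ring
    rw [e2, e1, ← Real.exp_nat_mul, ← Real.exp_add, ← Real.exp_add, ← Real.exp_add]
    congr 2
    have h3 : (n : ℝ) * (2 * p) = 2 * (1 + x) := by rw [← hpn]; ring
    rw [hB]
    linear_combination h3
  rw [heq]
  have hBle := B_le x d hx0 hx2 hd0.le hd2
  have hnB : n * B ≤ -(l ^ 3 / 6) + 4 := by
    have h1 : (n : ℝ) * B ≤ m ^ 3 * (-x ^ 3 / 6 + d ^ 3 / 3 + 2 * d ^ 4 + 5 / 2 * x ^ 4 +
        x * d ^ 2 / 2) := by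
      rw [hm3]
      exact mul_le_mul_of_nonneg_left hBle hn0.le
    refine h1.trans ?_
    have hmx : m * x = l := by rw [hx]; field_simp
    have hmd : m * d ≤ 1 := by
      calc m * d ≤ m * (1 / m) := mul_le_mul_of_nonneg_left hdm hm0.le
        _ = 1 := by field_simp
    have hmd0 : 0 ≤ m * d := by positivity
    have hmdl : (m * d) * (1 + l) = 1 := by
      rw [hd]
      have : (1 + l) ≠ 0 := by positivity
      field_simp
    have e1 : m ^ 3 * (-x ^ 3 / 6 + d ^ 3 / 3 + 2 * d ^ 4 + 5 / 2 * x ^ 4 + x * d ^ 2 / 2)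
        = -(m * x) ^ 3 / 6 + (m * d) ^ 3 / 3 + 2 * (m * d) ^ 3 * d + 5 / 2 * (m * x) ^ 3 * x
          + (m * x) * (m * d) ^ 2 / 2 := by ring
    rw [e1, hmx]
    have g1 : (m * d) ^ 3 ≤ 1 := pow_le_one₀ hmd0 hmd
    have g1' : 0 ≤ (m * d) ^ 3 := by positivity
    have g2 : 5 / 2 * l ^ 3 * x ≤ 1 := by
      rw [hx]
      have : 5 / 2 * l ^ 3 * (l / m) = 5 / 2 * l ^ 4 / m := by ring
      rw [this, div_le_one hm0]
      exact hln4
    have g3 : l * (m * d) ^ 2 ≤ 1 := by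
      have h3' : l * (m * d) = 1 - m * d := by linear_combination hmdl
      have h3 : l * (m * d) ≤ 1 := by linarith
      calc l * (m * d) ^ 2 = l * (m * d) * (m * d) := by ring
        _ ≤ 1 * 1 := mul_le_mul h3 hmd hmd0 (by norm_num)
        _ = 1 := by norm_num
    have g4 : 2 * (m * d) ^ 3 * d ≤ 1 := by
      calc 2 * (m * d) ^ 3 * d = 2 * ((m * d) ^ 3 * d) := by ring
        _ ≤ 2 * (1 * (1 / 2)) :=
          mul_le_mul_of_nonneg_left (mul_le_mul g1 hd2 hd0.le (by norm_num)) (by norm_num)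
        _ = 1 := by norm_num
    linarith
  have hfin : Real.exp (1 + (1 + x) / 2 + 2 * (1 + x) + n * B)
      ≤ Real.exp 10 * Real.exp (-(l ^ 3 / 6)) := by
    rw [← Real.exp_add]
    refine Real.exp_le_exp.2 ?_
    linarith
  calc √n * Real.exp (1 + (1 + x) / 2 + 2 * (1 + x) + n * B)
      ≤ √n * (Real.exp 10 * Real.exp (-(l ^ 3 / 6))) :=
        mul_le_mul_of_nonneg_left hfin (Real.sqrt_nonneg _)
    _ = Real.exp 10 * (√n * Real.exp (-(l ^ 3 / 6))) := by ring

end Pool.Agent.Helper22.AW.AT
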