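import Pool.Agent.Helper96.AW.GoalsA

/-!
Project AW, packet TB2: the number of cycles on `Fin s`.  For every connected 2-regular graph on
`Fin s` there is a cyclic order of the vertices along the graph
(`IsCycles.exists_cycle_toSubgraph_verts_eq_connectedComponentSupp`); composing with the `2 s` rotations
and reflections gives an injection into the permutations.
-/

set_option autoImplicit false

namespace Pool.Agent.Helper22.AW.TB2

open Finset Pool.Agent.Helper26.AF Pool.Agent.Helper96.AW

/-- `π` goes around `G`. -/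
def Trav {m : ℕ} (G : SimpleGraph (Fin (m + 1))) (π : Equiv.Perm (Fin (m + 1))) : Prop :=
  ∀ i, G.Adj (π i) (π (i + 1))

theorem two_ne_zero' {m : ℕ} (hm : 2 ≤ m) : (1 : Fin (m + 1)) + 1 ≠ 0 := by
  intro h
  have h1 := congrArg Fin.val h
  rw [Fin.val_add, Fin.val_one', Fin.val_zero] at h1
  rw [Nat.mod_eq_of_lt (by omega : 1 < m + 1), Nat.mod_eq_of_lt (by omega : 1 + 1 < m + 1)] at h1
  omega

theorem edge_inj {m : ℕ} (hm : 2 ≤ m) (π : Equiv.Perm (Fin (m + 1))) :
    Function.Injective (fun i => s(π i, π (i + 1))) := by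
  intro i j h
  simp only [Sym2.eq_iff] at h
  rcases h with ⟨h1, _⟩ | ⟨h1, h2⟩
  · exact π.injective h1
  · exfalso
    have e1 := π.injective h1
    have e2 := π.injective h2
    rw [e1, add_assoc] at e2
    have : (1 : Fin (m + 1)) + 1 = 0 := by
      have h3 : j + (1 + 1) = j + 0 := by rw [e2, add_zero]
      exact add_left_cancel h3
    exact two_ne_zero' hm this

theorem edges {m : ℕ} (hm : 2 ≤ m) (G : SimpleGraph (Fin (m + 1))) (π : Equiv.Perm (Fin (m + 1)))
    (hne : ne G = m + 1) (h : Trav G π) : G.edgeSet = Set.range (fun i => s(π i, π (i + 1))) := by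
  symm
  refine Set.eq_of_subset_of_ncard_le ?_ ?_ (Set.toFinite _)
  · rintro e ⟨i, rfl⟩
    exact h i
  · have h1 : G.edgeSet.ncard = m + 1 := hne
    rw [h1, ← Set.image_univ, Set.ncard_image_of_injective _ (edge_inj hm π), Set.ncard_univ]
    simp

theorem exists_trav {m : ℕ} (G : SimpleGraph (Fin (m + 1))) (hG : G.Connected)
    (hd : ∀ v, 2 ≤ dg G v) (hne : ne G = m + 1) : ∃ π, Trav G π := by
  classical
  have hdeg : ∀ v, dg G v = G.degree v := by
    intro v
    unfold dg
    rw [Nat.card_eq_fintype_card, SimpleGraph.card_neighborSet_eq_degree]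
  have hsum : ∑ v, G.degree v = 2 * (m + 1) := by
    have h1 : #G.edgeFinset = m + 1 := by
      rw [SimpleGraph.edgeFinset_card, ← Nat.card_eq_fintype_card]
      exact hne
    rw [SimpleGraph.sum_degrees_eq_twice_card_edges, h1]
  have h2 : ∀ v, G.degree v = 2 := by
    have h3 : ∑ v : Fin (m + 1), 2 = ∑ v, G.degree v := by
      rw [hsum]; simp; ring
    have h4 := (Finset.sum_eq_sum_iff_of_le (s := univ) (f := fun _ => 2) (g := fun v => G.degree v)
      (fun v _ => by rw [← hdeg]; exact hd v)).1 h3
    intro v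
    exact (h4 v (Finset.mem_univ v)).symm
  have hcyc : G.IsCycles := by
    intro v _
    rw [← Nat.card_coe_set_eq, Nat.card_eq_fintype_card, SimpleGraph.card_neighborSet_eq_degree]
    exact h2 v
  have hn : (G.neighborSet 0).Nonempty := by
    rw [← Set.ncard_pos, ← Nat.card_coe_set_eq, Nat.card_eq_fintype_card,
      SimpleGraph.card_neighborSet_eq_degree, h2]
    norm_num
  obtain ⟨p, hp, hv⟩ := hcyc.exists_cycle_toSubgraph_verts_eq_connectedComponentSupp
    (c := G.connectedComponentMk 0) (v := 0) rfl hn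
  have hall : ∀ w, w ∈ p.support := by
    intro w
    rw [← SimpleGraph.Walk.mem_verts_toSubgraph, hv]
    exact (SimpleGraph.ConnectedComponent.eq.2 (hG.preconnected w 0))
  have hlen : 3 ≤ p.length := hp.three_le_length
  have hinj : Set.InjOn p.getVert {i | i ≤ p.length - 1} := hp.getVert_injOn'
  have hsur : ∀ w, ∃ i < p.length, p.getVert i = w := by
    intro w
    obtain ⟨i, hi, hil⟩ := SimpleGraph.Walk.mem_support_iff_exists_getVert.1 (hall w)
    rcases Nat.lt_or_ge i p.length with h | h
    · exact ⟨i, h, hi⟩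
    · refine ⟨0, by omega, ?_⟩
      rw [SimpleGraph.Walk.getVert_zero]
      rw [← hi, SimpleGraph.Walk.getVert_of_length_le _ h]
  have hcard : p.length = m + 1 := by
    have h5 : (Finset.range p.length).image p.getVert = univ := by
      ext w
      simp only [Finset.mem_image, Finset.mem_range, Finset.mem_univ, iff_true]
      exact hsur w
    have h6 : #((Finset.range p.length).image p.getVert) = p.length := by
      rw [Finset.card_image_of_injOn, Finset.card_range]
      intro i hi j hj hij
      have hi' : i < p.length := by simpa using hi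
      have hj' : j < p.length := by simpa using hj
      exact hinj (by simp only [Set.mem_ofPred_eq]; omega) (by simp only [Set.mem_ofPred_eq]; omega) hij
    rw [h5] at h6
    rw [← h6]
    simp
  let f : Fin (m + 1) → Fin (m + 1) := fun i => p.getVert i.val
  have hf : Function.Injective f := by
    intro i j hij
    have := i.isLt
    have := j.isLt
    exact Fin.ext (hinj (by simp only [Set.mem_ofPred_eq]; omega)
      (by simp only [Set.mem_ofPred_eq]; omega) hij)
  refine ⟨Equiv.ofBijective f (Finite.injective_iff_bijective.1 hf), fun i => ?_⟩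
  simp only [Equiv.ofBijective_apply]
  change G.Adj (p.getVert i.val) (p.getVert (i + 1).val)
  have hi := i.isLt
  have hadj := p.adj_getVert_succ (i := i.val) (by omega)
  have hval : (i + 1).val = (i.val + 1) % (m + 1) := by
    rw [Fin.val_add, Fin.val_one']
    simp
  rcases Nat.lt_or_ge (i.val + 1) (m + 1) with h | h
  · rw [hval, Nat.mod_eq_of_lt h]
    exact hadj
  · have hi' : i.val + 1 = m + 1 := by omega
    have hend : p.getVert (i.val + 1) = 0 :=
      SimpleGraph.Walk.getVert_of_length_le _ (by omega)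
    rw [hval, hi', Nat.mod_self, SimpleGraph.Walk.getVert_zero]
    rw [hend] at hadj
    exact hadj

theorem big {m : ℕ} (hm : 2 ≤ m) : 2 * (m + 1) * Kc (m + 1) 0 ≤ (m + 1).factorial := by
  classical
  let K := {G : SimpleGraph (Fin (m + 1)) // G.Connected ∧ (∀ v, 2 ≤ dg G v) ∧ ne G = m + 1 + 0}
  have hK : Nat.card K = Kc (m + 1) 0 := rfl
  have hex : ∀ G : K, ∃ π, Trav G.1 π := fun G => exists_trav G.1 G.2.1 G.2.2.1 G.2.2.2
  choose π₀ hπ using hex
  let Φ : K × Fin (m + 1) × Bool → Equiv.Perm (Fin (m + 1)) := fun t =>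
    if t.2.2 = true then (Equiv.addRight t.2.1).trans (π₀ t.1)
    else (Equiv.subLeft t.2.1).trans (π₀ t.1)
  have hΦ : ∀ t, Trav t.1.1 (Φ t) := by
    rintro ⟨G, c, b⟩ i
    cases b
    · have h1 : c - i = c - (i + 1) + 1 := by abel
      simp only [Φ, Bool.false_eq_true, if_false, Equiv.trans_apply, Equiv.subLeft_apply]
      rw [h1]
      exact (hπ G (c - (i + 1))).symm
    · have h1 : i + 1 + c = i + c + 1 := by abel
      simp only [Φ, if_true, Equiv.trans_apply, Equiv.coe_addRight]
      rw [h1]
      exact hπ G (i + c)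
  have hinj : Function.Injective Φ := by
    rintro ⟨G, c, b⟩ ⟨G', c', b'⟩ h
    have hG : G = G' := by
      have h1 := edges hm G.1 _ G.2.2.2 (hΦ ⟨G, c, b⟩)
      have h2 := edges hm G'.1 _ G'.2.2.2 (hΦ ⟨G', c', b'⟩)
      rw [← h, ← h1] at h2
      exact Subtype.ext (SimpleGraph.edgeSet_inj.1 h2.symm)
    subst hG
    have h0 := Equiv.congr_fun h 0
    have h1 := Equiv.congr_fun h 1
    cases b <;> cases b' <;>
      simp only [Φ, Bool.false_eq_true, if_false, if_true, Equiv.trans_apply, Equiv.subLeft_apply,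
        Equiv.coe_addRight, sub_zero, zero_add] at h0 h1
    · rw [(π₀ G).injective h0]
    · exfalso
      have e0 := (π₀ G).injective h0
      have e1 := (π₀ G).injective h1
      rw [e0] at e1
      apply two_ne_zero' hm
      have : c' - 1 + 1 = 1 + c' + 1 := by rw [e1]
      rw [sub_add_cancel] at this
      have h3 : c' + (1 + 1) = c' + 0 := by rw [add_zero]; nth_rewrite 2 [this]; abel
      exact add_left_cancel h3
    · exfalso
      have e0 := (π₀ G).injective h0
      have e1 := (π₀ G).injective h1
      rw [e0] at e1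
      apply two_ne_zero' hm
      have : 1 + c' + 1 = c' - 1 + 1 := by rw [e1]
      rw [sub_add_cancel] at this
      have h3 : c' + (1 + 1) = c' + 0 := by rw [add_zero]; nth_rewrite 2 [← this]; abel
      exact add_left_cancel h3
    · rw [(π₀ G).injective h0]
  have hcard := Nat.card_le_card_of_injective Φ hinj
  rw [Nat.card_prod, Nat.card_prod, hK] at hcard
  have h3 : Nat.card (Equiv.Perm (Fin (m + 1))) = (m + 1).factorial := by
    rw [Nat.card_eq_fintype_card, Fintype.card_perm, Fintype.card_fin]
  rw [h3] at hcard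
  simp only [Nat.card_eq_fintype_card, Fintype.card_fin, Fintype.card_bool] at hcard
  calc 2 * (m + 1) * Kc (m + 1) 0 = Kc (m + 1) 0 * ((m + 1) * 2) := by ring
    _ ≤ _ := hcard

theorem small (s : ℕ) (hs : s ≤ 2) : Kc s 0 = 0 := by
  classical
  unfold Kc
  rw [Nat.card_eq_zero]
  left
  refine ⟨?_⟩
  rintro ⟨G, hG, hd, _⟩
  obtain ⟨v⟩ := hG.nonempty
  have h1 := hd v
  unfold dg at h1
  rw [Nat.card_eq_fintype_card, SimpleGraph.card_neighborSet_eq_degree] at h1
  have h2 := G.degree_lt_card_verts v
  rw [Fintype.card_fin] at h2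
  omega

theorem t : Pool.Agent.Helper96.AW.S_TB2 := by
  intro s
  refine ⟨?_, small s⟩
  rcases Nat.lt_or_ge s 3 with h | h
  · rw [small s (by omega)]; simp
  · obtain ⟨m, rfl⟩ : ∃ m, s = m + 1 := ⟨s - 1, by omega⟩
    exact big (by omega)

end Pool.Agent.Helper22.AW.TB2
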