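import Pool.Agent.Helper96.AW.GoalsA

/-!
Project AW, packet TG: the probability of no complex component as a sum over graphs.
-/

set_option autoImplicit false

namespace Pool.Agent.Helper22.AW.TG

open Finset Pool.Agent.Helper26.AF Pool.Agent.Helper96.AW

theorem ne_le {n : ℕ} (G : SimpleGraph (Fin n)) : ne G ≤ n.choose 2 := by
  classical
  unfold ne
  rw [Nat.card_eq_fintype_card, ← SimpleGraph.edgeFinset_card]
  simpa using G.card_edgeFinset_le_card_choose_two

theorem ZZ_iff {n : ℕ} (G : SimpleGraph (Fin n)) : ZZ G = 0 ↔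
    ∀ Q : Finset (Fin n), IsComp G Q → eIn G Q ≤ #Q ∧ (eIn G Q < #Q → #Q < n + 1) := by
  classical
  unfold ZZ
  rw [Finset.sum_eq_zero_iff]
  constructor
  · intro h Q hQ
    refine ⟨?_, fun _ => Nat.lt_succ_of_le ?_⟩
    · by_contra hlt
      have h1 := h Q (Finset.mem_univ Q)
      unfold zq at h1
      rw [if_pos ⟨hQ, by omega⟩] at h1
      omega
    · simpa using Finset.card_le_univ Q
  · intro h Q _
    unfold zq
    rw [if_neg]
    rintro ⟨hQ, hlt⟩
    have := (h Q hQ).1
    omega

theorem t : Pool.Agent.Helper96.AW.S_TG := by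
  intro n p hp0 hp1
  classical
  unfold Pr EE XL
  rw [Finset.mul_sum]
  refine Finset.sum_congr rfl fun G _ => ?_
  beta_reduce
  by_cases hz : ZZ G = 0
  · rw [if_pos hz, if_pos ((ZZ_iff G).1 hz)]
    unfold wt
    rw [Fintype.card_fin]
    have h1 : (1 - p) ≠ 0 := by linarith
    have h2 : n.choose 2 = (n.choose 2 - ne G) + ne G := (Nat.sub_add_cancel (ne_le G)).symm
    have h3 : (1 - p) ^ (n.choose 2) = (1 - p) ^ (n.choose 2 - ne G) * (1 - p) ^ (ne G) := by
      rw [← pow_add, ← h2]
    rw [h3, div_pow]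
    field_simp
  · rw [if_neg hz, if_neg (fun h => hz ((ZZ_iff G).2 h))]
    simp

end Pool.Agent.Helper22.AW.TG
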